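import Mathlib
import Pool.Agent.Helper28.PL.Goals

/-!
# Project CR (MP_bdaf95_co): definitions

5-critical graphs of minimum degree 5 with crossing number `k ≥ 2`, and 5-critical graphs with
crossing number 1 and exactly one vertex of degree 4.
-/

set_option autoImplicit false

namespace Pool.Agent.Helper85.CR

open Equiv Helper28.VF Helper28.PL

/-! ## Planar graphs and drawings (public definitions) -/

/-- The reversal of the darts (oriented edges) of `H`. -/
def rev {V : Type} (H : SimpleGraph V) : Equiv.Perm H.Dart :=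
  Function.Involutive.toPerm SimpleGraph.Dart.symm SimpleGraph.Dart.symm_involutive

/-- `σ` is a rotation system of `H`: a permutation of the darts of `H` that permutes, for each
vertex `v`, the darts with initial vertex `v` in a single cycle. -/
def IsRotation {V : Type} (H : SimpleGraph V) (σ : Equiv.Perm H.Dart) : Prop :=
  ∀ d e : H.Dart, σ.SameCycle d e ↔ d.fst = e.fst

/-- The number of faces of a rotation system: the number of cycles of the face permutation
`σ ∘ rev`. -/
noncomputable def numFaces {V : Type} (H : SimpleGraph V) (σ : Equiv.Perm H.Dart) : ℕ :=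
  Nat.card (Quotient (Equiv.Perm.SameCycle.setoid (σ * rev H)))

/-- A finite graph is planar if it has at most one vertex or if it is a spanning subgraph of a
connected graph `H` with a rotation system of genus `0`, that is `|V| - |E| + |F| = 2`. -/
def Planar {V : Type} (G : SimpleGraph V) : Prop :=
  Nat.card V ≤ 1 ∨ ∃ H : SimpleGraph V, G ≤ H ∧ H.Connected ∧
    ∃ σ : Equiv.Perm H.Dart, IsRotation H σ ∧ Nat.card V + numFaces H σ = Nat.card H.edgeSet + 2

/-- The graph obtained from `G` by turning a crossing of the edges `ac` and `bd` into a vertex: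
`none` is a new vertex that subdivides both edges. -/
def planarize {V : Type} (G : SimpleGraph V) (a b c d : V) : SimpleGraph (Option V) :=
  SimpleGraph.fromRel fun x y => match x, y with
    | some u, some v => G.Adj u v ∧ s(u, v) ≠ s(a, c) ∧ s(u, v) ≠ s(b, d)
    | none, some v => v = a ∨ v = b ∨ v = c ∨ v = d
    | _, none => False

/-- `G` has a drawing with `k` crossings (no two edges with a common end cross, and every crossing
is a crossing of two edges): either `k = 0` and `G` is planar, or turning a crossing of two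
disjoint edges `ac`, `bd` into a vertex gives a graph that has a drawing with `k - 1` crossings. -/
def Drawn : ℕ → ∀ V : Type, SimpleGraph V → Prop
  | 0, _, G => Planar G
  | k + 1, V, G => ∃ a b c d : V, a ≠ b ∧ a ≠ d ∧ c ≠ b ∧ c ≠ d ∧ G.Adj a c ∧ G.Adj b d ∧
      Drawn k (Option V) (planarize G a b c d)

/-- The crossing number of `G` is `k`. -/
def CrossingNumber {V : Type} (G : SimpleGraph V) (k : ℕ) : Prop :=
  Drawn k V G ∧ ∀ j < k, ¬ Drawn j V G

/-- `G` is 5-critical. -/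
def Critical5 {V : Type} (G : SimpleGraph V) : Prop :=
  G.chromaticNumber = 5 ∧ ∀ H : G.Subgraph, H ≠ ⊤ → H.coe.Colorable 4

/-- The degree of a vertex. -/
noncomputable def deg {V : Type} (G : SimpleGraph V) (v : V) : ℕ := (G.neighborSet v).ncard

/-! ## Plane maps with named vertices and a distinguished face -/

section
variable {D V E F : Type} [Fintype D] [Fintype V] [Fintype E] [Fintype F]

/-- The list `b` of darts is a face (in cyclic order) of the plane map `M`. -/
def IsFace (M : PM D V E F) (b : List D) : Prop :=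
  b ≠ [] ∧ b.Nodup ∧ List.IsChain (fun d e => M.σ (M.α d) = e) (b ++ b.take 1)

end

/-- There is a connected simple plane map whose vertices are named by the elements of `S`, whose
adjacency relation is `A`, and one of whose faces has the boundary walk `l`. -/
def Disc {W : Type} (S : Set W) (A : W → W → Prop) (l : List W) : Prop :=
  ∃ (D V E F : Type) (_ : Fintype D) (_ : Fintype V) (_ : Fintype E) (_ : Fintype F)
    (M : PM D V E F) (nm : V → W) (b : List D),
    Simple M ∧ Function.Injective nm ∧ Set.range nm = S ∧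
    (∀ x y, A x y ↔ ∃ d, nm (M.vt d) = x ∧ nm (M.vt (M.α d)) = y) ∧
    IsFace M b ∧ b.map (fun d => nm (M.vt d)) = l

/-- `A` together with the pair `u v`. -/
def addE {W : Type} (A : W → W → Prop) (u v : W) : W → W → Prop :=
  fun x y => A x y ∨ (x = u ∧ y = v) ∨ (x = v ∧ y = u)

/-! ## Growing a disc: programs -/

/-- number of vertices used, list of edges, boundary -/
structure St where
  n : ℕ
  E : List (ℕ × ℕ)
  bd : List ℕ
  deriving DecidableEq

/-- Rotate the boundary by `p.1` and join the new vertex `n` to the first `p.2` vertices. -/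
def step (s : St) (p : ℕ × ℕ) : St :=
  { n := s.n + 1
    E := ((s.bd.rotate p.1).take p.2).map (fun x => (s.n, x)) ++ s.E
    bd := s.n :: ((s.bd.rotate p.1).drop (p.2 - 1) ++ (s.bd.rotate p.1).take 1) }

/-- The step is allowed. -/
def okStep (s : St) (p : ℕ × ℕ) : Bool :=
  decide (2 ≤ p.2) && (decide (p.2 ≤ s.bd.length) && decide ((s.bd.rotate p.1).take p.2).Nodup)

/-- Run a program. -/
def run : St → List (ℕ × ℕ) → St
  | s, [] => s
  | s, p :: P => run (step s p) P

/-- All steps are allowed. -/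
def okRun : St → List (ℕ × ℕ) → Bool
  | _, [] => true
  | s, p :: P => okStep s p && okRun (step s p) P

/-- The adjacency relation given by a list of pairs of codes. -/
def edg {W : Type} (nm : ℕ → W) (E : List (ℕ × ℕ)) : W → W → Prop :=
  fun x y => ∃ p ∈ E, (nm p.1 = x ∧ nm p.2 = y) ∨ (nm p.2 = x ∧ nm p.1 = y)

/-! ## Rings, layers -/

/-- The 4-cycle. -/
def cyc4 : SimpleGraph (Fin 4) := SimpleGraph.fromRel fun i j => j = i + 1

/-- Attach a layer with `t` new vertices to the ring `ρ` of `G`: `up i j` says that the ring vertex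
`ρ i` is joined to the new vertex `j`, `nn i j` that the new vertices `i`, `j` are joined. -/
def ext {V : Type} (G : SimpleGraph V) (ρ : Fin 4 → V) {t : ℕ} (up : Fin 4 → Fin t → Bool)
    (nn : Fin t → Fin t → Bool) : SimpleGraph (V ⊕ Fin t) :=
  SimpleGraph.fromRel fun x y => match x, y with
    | Sum.inl u, Sum.inl v => G.Adj u v
    | Sum.inl u, Sum.inr j => ∃ i, ρ i = u ∧ up i j = true
    | Sum.inr i, Sum.inr j => nn i j = true
    | Sum.inr _, Sum.inl _ => False

/-- The layer alone. -/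
def lay {t : ℕ} (up : Fin 4 → Fin t → Bool) (nn : Fin t → Fin t → Bool) :
    SimpleGraph (Fin 4 ⊕ Fin t) := ext cyc4 id up nn

/-- Close the ring by two crossing edges. -/
def close {V : Type} (G : SimpleGraph V) (ρ : Fin 4 → V) : SimpleGraph V :=
  G ⊔ SimpleGraph.fromEdgeSet {s(ρ 0, ρ 2), s(ρ 1, ρ 3)}

/-! ## Colourings -/

/-- `c` is a proper colouring of `G` except possibly on the edge `xy`. -/
def PropEx {V : Type} (G : SimpleGraph V) (x y : V) (c : V → Fin 4) : Prop :=
  ∀ u v, G.Adj u v → s(u, v) ≠ s(x, y) → c u ≠ c v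

/-- `c` is a proper colouring. -/
def Proper {V : Type} (G : SimpleGraph V) (c : V → Fin 4) : Prop := ∀ u v, G.Adj u v → c u ≠ c v

/-- The ring pattern `a = c`, `b ≠ d`. -/
def Pat1 (f : Fin 4 → Fin 4) : Prop := f 0 = f 2 ∧ f 1 ≠ f 3 ∧ f 0 ≠ f 1 ∧ f 0 ≠ f 3

/-- The ring pattern `b = d`, `a ≠ c`. -/
def Pat2 (f : Fin 4 → Fin 4) : Prop := f 1 = f 3 ∧ f 0 ≠ f 2 ∧ f 1 ≠ f 0 ∧ f 1 ≠ f 2

/-- The pattern in which only the two ends of the ring edge `i, i + 1` have the same colour. -/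
def PatE (i : Fin 4) (f : Fin 4 → Fin 4) : Prop :=
  f i = f (i + 1) ∧ f (i + 2) ≠ f (i + 3) ∧ f i ≠ f (i + 2) ∧ f i ≠ f (i + 3)

/-- The colouring properties of a graph with a ring. -/
structure CapCol {V : Type} (G : SimpleGraph V) (ρ : Fin 4 → V) : Prop where
  inj : Function.Injective ρ
  ring : ∀ i, G.Adj (ρ i) (ρ (i + 1))
  noR : ∀ c, Proper G c → ¬ Function.Injective (c ∘ ρ)
  pat1 : ∃ c, Proper G c ∧ Pat1 (c ∘ ρ)
  pat2 : ∃ c, Proper G c ∧ Pat2 (c ∘ ρ)
  crit : ∀ x y, G.Adj x y → (∀ i, s(x, y) ≠ s(ρ i, ρ (i + 1))) →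
    ∃ c, PropEx G x y c ∧ Function.Injective (c ∘ ρ)
  critR : ∀ i, ∃ c, PropEx G (ρ i) (ρ (i + 1)) c ∧ PatE i (c ∘ ρ)

/-- The colouring properties of a layer with inner ring `ι`. -/
structure LayCol {t : ℕ} (up : Fin 4 → Fin t → Bool) (nn : Fin t → Fin t → Bool)
    (ι : Fin 4 → Fin t) : Prop where
  inj : Function.Injective ι
  ring : ∀ i, nn (ι i) (ι (i + 1)) = true
  l1 : ∀ c, Proper (lay up nn) c → Function.Injective (fun i => c (Sum.inr (ι i))) →
    Function.Injective (fun i => c (Sum.inl i))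
  l2 : ∃ c, Proper (lay up nn) c ∧ Function.Injective (fun i => c (Sum.inr (ι i)))
  l3a : ∃ c, Proper (lay up nn) c ∧ Pat1 (fun i => c (Sum.inr (ι i))) ∧
    (Pat1 (fun i => c (Sum.inl i)) ∨ Pat2 (fun i => c (Sum.inl i)))
  l3b : ∃ c, Proper (lay up nn) c ∧ Pat2 (fun i => c (Sum.inr (ι i))) ∧
    (Pat1 (fun i => c (Sum.inl i)) ∨ Pat2 (fun i => c (Sum.inl i)))
  l4 : ∀ x y, (lay up nn).Adj x y → (∀ i, s(x, y) ≠ s(Sum.inl i, Sum.inl (i + 1))) →
    (∀ i, s(x, y) ≠ s(Sum.inr (ι i), Sum.inr (ι (i + 1)))) →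
    ∃ c, PropEx (lay up nn) x y c ∧ Function.Injective (fun i => c (Sum.inr (ι i))) ∧
    (Pat1 (fun i => c (Sum.inl i)) ∨ Pat2 (fun i => c (Sum.inl i)))
  l5 : ∀ i, ∃ c, PropEx (lay up nn) (Sum.inr (ι i)) (Sum.inr (ι (i + 1))) c ∧
    PatE i (fun j => c (Sum.inr (ι j))) ∧
    (Pat1 (fun i => c (Sum.inl i)) ∨ Pat2 (fun i => c (Sum.inl i)))
  l6 : ∀ i, ∃ c, PropEx (lay up nn) (Sum.inl i) (Sum.inl (i + 1)) c ∧
    Function.Injective (fun j => c (Sum.inr (ι j))) ∧ PatE i (fun j => c (Sum.inl j))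

/-! ## Counting -/

/-- Numbers of vertices and edges, and degrees.  `m` is a lower bound for the degrees in the ring,
`h` is a set of exceptional vertices, `x` the number of crossings. -/
structure CapCnt {V : Type} [Fintype V] (G : SimpleGraph V) (ρ : Fin 4 → V) (x m : ℕ)
    (h : Set V) : Prop where
  inj : Function.Injective ρ
  nh : ∀ i, ρ i ∉ h
  edges : 3 * Fintype.card V + x ≤ G.edgeSet.ncard + 7
  ringdeg : ∀ i, m ≤ deg G (ρ i)
  degs : ∀ v, v ∉ h → (∀ i, v ≠ ρ i) → 5 ≤ deg G v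
  hdeg : ∀ v ∈ h, deg G v = 4

/-- The number of layer neighbours of the new vertex `j` (in the ring and among the new ones). -/
def ndeg {t : ℕ} (up : Fin 4 → Fin t → Bool) (nn : Fin t → Fin t → Bool) (j : Fin t) : ℕ :=
  (Finset.univ.filter fun i => up i j = true).card + (Finset.univ.filter fun i => nn i j = true).card

/-- The counting properties of a layer with `x` crossings. -/
structure LayCnt {t : ℕ} (up : Fin 4 → Fin t → Bool) (nn : Fin t → Fin t → Bool)
    (ι : Fin 4 → Fin t) (x : ℕ) : Prop where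
  inj : Function.Injective ι
  symm : ∀ i j, nn i j = nn j i
  irr : ∀ i, nn i i = false
  edges : 2 * (Finset.univ.filter fun p : Fin 4 × Fin t => up p.1 p.2 = true).card +
    (Finset.univ.filter fun p : Fin t × Fin t => nn p.1 p.2 = true).card = 6 * t + 2 * x
  updeg : ∀ i, 2 ≤ (Finset.univ.filter fun j => up i j = true).card
  ringdeg : ∀ i, 4 ≤ ndeg up nn (ι i)
  degs : ∀ j, (∀ i, j ≠ ι i) → 5 ≤ ndeg up nn j

/-! ## Drawings of graphs with a ring -/

/-- The edge `e` is one of the crossing edges `q x 0 – q x 2`, `q x 1 – q x 3`. -/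
def Crossed {V X : Type} (q : X → Fin 4 → V) (e : Sym2 V) : Prop :=
  ∃ x, e = s(q x 0, q x 2) ∨ e = s(q x 1, q x 3)

/-- The crossings `q`: pairs of disjoint edges of `G`, all these edges are different. -/
structure QOK {V X : Type} (G : SimpleGraph V) (q : X → Fin 4 → V) : Prop where
  inj : ∀ x, Function.Injective (q x)
  adj : ∀ x, G.Adj (q x 0) (q x 2) ∧ G.Adj (q x 1) (q x 3)
  dist : ∀ x y, x ≠ y → s(q x 0, q x 2) ≠ s(q y 0, q y 2) ∧ s(q x 0, q x 2) ≠ s(q y 1, q y 3) ∧
    s(q x 1, q x 3) ≠ s(q y 1, q y 3)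

/-- `A` contains the planarization of `G` at the crossings `q`. -/
structure HasPlan {V X : Type} (G : SimpleGraph V) (q : X → Fin 4 → V)
    (A : V ⊕ X → V ⊕ X → Prop) : Prop where
  old : ∀ u v, G.Adj u v → ¬ Crossed q s(u, v) → A (Sum.inl u) (Sum.inl v)
  new : ∀ x i, A (Sum.inl (q x i)) (Sum.inr x)

/-- The drawing properties of a graph with a ring. -/
structure CapDraw {V X : Type} (G : SimpleGraph V) (ρ : Fin 4 → V) (q : X → Fin 4 → V) : Prop where
  inj : Function.Injective ρ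
  qok : QOK G q
  disc : ∃ A, Disc Set.univ A [Sum.inl (ρ 0), Sum.inl (ρ 1), Sum.inl (ρ 2), Sum.inl (ρ 3)] ∧
    HasPlan G q A

/-- The crossings after attaching a layer with crossings `lq`. -/
def extq {V X : Type} (ρ : Fin 4 → V) (q : X → Fin 4 → V) {t s : ℕ}
    (lq : Fin s → Fin 4 → Fin 4 ⊕ Fin t) : X ⊕ Fin s → Fin 4 → V ⊕ Fin t
  | Sum.inl x, i => Sum.inl (q x i)
  | Sum.inr y, i => Sum.map ρ id (lq y i)

/-- The code of a vertex of a layer. -/
def code {t : ℕ} (cv : Fin t → ℕ) : Fin 4 ⊕ Fin t → ℕ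
  | Sum.inl i => i
  | Sum.inr j => cv j

/-- A drawing of a layer: a program `P` that starts with the outer ring `[0, 1, 2, 3]` and ends
with the inner ring; `cv j`, `cx y` are the codes of the new vertices and of the crossings. -/
structure LayDraw {t s : ℕ} (up : Fin 4 → Fin t → Bool) (nn : Fin t → Fin t → Bool)
    (ι : Fin 4 → Fin t) (lq : Fin s → Fin 4 → Fin 4 ⊕ Fin t) (P : List (ℕ × ℕ))
    (cv : Fin t → ℕ) (cx : Fin s → ℕ) : Prop where
  inj : Function.Injective ι
  cvinj : Function.Injective cv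
  cxinj : Function.Injective cx
  cvcx : ∀ j y, cv j ≠ cx y
  cvlt : ∀ j, 4 ≤ cv j ∧ cv j < 4 + t + s
  cxlt : ∀ y, 4 ≤ cx y ∧ cx y < 4 + t + s
  len : P.length = t + s
  ok : okRun ⟨4, [], [0, 1, 2, 3]⟩ P = true
  bd : ∃ r, (run ⟨4, [], [0, 1, 2, 3]⟩ P).bd.rotate r =
    [cv (ι 0), cv (ι 1), cv (ι 2), cv (ι 3)]
  eup : ∀ i j, up i j = true → ¬ Crossed lq s(Sum.inl i, Sum.inr j) →
    ((i : ℕ), cv j) ∈ (run ⟨4, [], [0, 1, 2, 3]⟩ P).E ∨
    (cv j, (i : ℕ)) ∈ (run ⟨4, [], [0, 1, 2, 3]⟩ P).E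
  enn : ∀ i j, nn i j = true → i ≠ j → ¬ Crossed lq s(Sum.inr i, Sum.inr j) →
    (cv i, cv j) ∈ (run ⟨4, [], [0, 1, 2, 3]⟩ P).E ∨
    (cv j, cv i) ∈ (run ⟨4, [], [0, 1, 2, 3]⟩ P).E
  ex : ∀ y i, (code cv (lq y i), cx y) ∈ (run ⟨4, [], [0, 1, 2, 3]⟩ P).E ∨
    (cx y, code cv (lq y i)) ∈ (run ⟨4, [], [0, 1, 2, 3]⟩ P).E
  qinj : ∀ y, Function.Injective (lq y)
  qadj : ∀ y, (lay up nn).Adj (lq y 0) (lq y 2) ∧ (lay up nn).Adj (lq y 1) (lq y 3)
  qdist : ∀ x y, x ≠ y → s(lq x 0, lq x 2) ≠ s(lq y 0, lq y 2) ∧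
    s(lq x 0, lq x 2) ≠ s(lq y 1, lq y 3) ∧ s(lq x 1, lq x 3) ≠ s(lq y 1, lq y 3)
  qnew : ∀ i j, ¬ Crossed lq s(Sum.inl i, Sum.inl j)

/-! ## Distances -/

/-- `h` is at distance at least `m` from the ring, and `G` has no clique with four vertices. -/
structure CapDist {V : Type} (G : SimpleGraph V) (ρ : Fin 4 → V) (h : V) (m : ℕ) : Prop where
  conn : G.Connected
  lev : ∃ f : V → ℕ, f h = 0 ∧ (∀ u v, G.Adj u v → f v ≤ f u + 1) ∧ ∀ i, f (ρ i) = m
  k4 : ∀ a b c d, ¬ (G.Adj a b ∧ G.Adj a c ∧ G.Adj a d ∧ G.Adj b c ∧ G.Adj b d ∧ G.Adj c d)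

/-! ## The data -/

/-- The antiprism layer: the ring vertex `i` is joined to the new vertices `i`, `i + 1`. -/
def upA (i : Fin 4) (j : Fin 4) : Bool := decide (j = i) || decide (j = i + 1)

/-- The antiprism layer: the new vertices form a 4-cycle. -/
def nnA (i : Fin 4) (j : Fin 4) : Bool := decide (j = i + 1) || decide (i = j + 1)

/-- The edges between the outer ring and the new vertices of the layer with one crossing. -/
def eUpX : List (ℕ × ℕ) :=
  [(0, 0), (0, 3), (1, 0), (1, 1), (1, 2), (1, 4), (2, 2), (2, 6), (3, 3), (3, 6), (3, 7), (3, 8)]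

/-- The edges between the new vertices of the layer with one crossing. -/
def eNnX : List (ℕ × ℕ) :=
  [(0, 1), (0, 3), (1, 4), (1, 8), (2, 4), (2, 5), (2, 6), (3, 7), (3, 8), (4, 5), (4, 8),
   (5, 6), (5, 7), (5, 8), (6, 7), (7, 8)]

/-- The layer with one crossing. -/
def upX (i : Fin 4) (j : Fin 9) : Bool := decide (((i : ℕ), (j : ℕ)) ∈ eUpX)

/-- The layer with one crossing. -/
def nnX (i j : Fin 9) : Bool :=
  decide (((i : ℕ), (j : ℕ)) ∈ eNnX) || decide (((j : ℕ), (i : ℕ)) ∈ eNnX)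

/-- The inner ring of the layer with one crossing. -/
def iX : Fin 4 → Fin 9 := ![8, 3, 0, 1]

/-- The crossing of the layer with one crossing. -/
def qX : Fin 1 → Fin 4 → Fin 4 ⊕ Fin 9 := fun _ => ![Sum.inr 8, Sum.inr 3, Sum.inl 3, Sum.inr 7]

/-- The program of the antiprism layer. -/
def PA : List (ℕ × ℕ) := [(3, 2), (0, 3), (0, 3), (0, 4)]

/-- The program of the layer with one crossing. -/
def PX : List (ℕ × ℕ) :=
  [(0, 2), (0, 2), (1, 2), (2, 3), (2, 3), (0, 2), (0, 4), (6, 3), (0, 3), (3, 6)]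

/-- The codes of the layer with one crossing. -/
def cvX : Fin 9 → ℕ := ![4, 5, 6, 7, 8, 9, 10, 11, 13]

/-- The edges of the base graph. -/
def eB : List (ℕ × ℕ) :=
  [(0, 3), (0, 5), (0, 6), (0, 8), (0, 11), (1, 3), (1, 4), (1, 9), (1, 11), (2, 5), (2, 6),
   (2, 7), (2, 8), (2, 10), (3, 4), (3, 6), (3, 7), (3, 8), (4, 7), (4, 9), (4, 10), (5, 6),
   (5, 9), (5, 10), (5, 11), (6, 8), (7, 8), (7, 10), (9, 10), (9, 11)]

/-- The base graph: 12 vertices, the ring is `3, 0, 11, 1`, the edges `63` and `08` cross. -/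
def GB : SimpleGraph (Fin 12) := SimpleGraph.fromRel fun i j => ((i : ℕ), (j : ℕ)) ∈ eB

/-- The ring of the base graph. -/
def rB : Fin 4 → Fin 12 := ![3, 0, 11, 1]

/-- The crossing of the base graph. -/
def qB : Fin 1 → Fin 4 → Fin 12 := fun _ => ![6, 0, 3, 8]

/-- The wheel with four spokes: the ring is `0, 1, 2, 3`, the hub is `4`. -/
def GH : SimpleGraph (Fin 5) :=
  SimpleGraph.fromRel fun i j => ((i : ℕ), (j : ℕ)) ∈
    ([(0, 1), (1, 2), (2, 3), (3, 0), (0, 4), (1, 4), (2, 4), (3, 4)] : List (ℕ × ℕ))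

/-- The ring of the wheel. -/
def rH : Fin 4 → Fin 5 := ![0, 1, 2, 3]

/-- No crossings. -/
def qH : Fin 0 → Fin 4 → Fin 5 := fun _ _ => 0

/-- No crossings. -/
def qA : Fin 0 → Fin 4 → Fin 4 ⊕ Fin 4 := fun _ _ => Sum.inl 0

end Pool.Agent.Helper85.CR
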