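import Mathlib
import Pool.Agent.Helper85.CR.Defs

/-!
# Project CR (MP_bdaf95_co): statements of the packets

Definitions in `Defs.lean`.  A plane map is a `Helper28.VF.PM` (rotation `σ`, reversal `α`, face
permutation `σ * α`).
-/

set_option autoImplicit false

namespace Pool.Agent.Helper85.CR

open Equiv Helper28.VF Helper28.PL

/-! ## Group P: plane maps with a boundary walk -/

/-- INIT.  The plane map with one edge.  Proof.  `D = V = Bool`, `σ = id`, `α = not`, `E = F = Unit`,
`nm false = u`, `nm true = v`, `b = [false, true]`. -/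
def StmtINIT : Prop := ∀ (W : Type) (u v : W), u ≠ v →
  Disc {u, v} (edg (fun i : ℕ => if i = 0 then u else v) [(0, 1)]) [u, v]

/-- ROTL.  Proof.  The list `b` of darts can be rotated (`IsFace` says that `b` is cyclic; one step:
`d :: t` becomes `t ++ [d]`). -/
def StmtROTL : Prop := ∀ (W : Type) (S : Set W) (A : W → W → Prop) (l : List W) (r : ℕ),
  Disc S A l → Disc S A (l.rotate r)

/-- TRA.  Names can be changed by an injective map.  Proof.  Same map, `nm' = f ∘ nm`. -/
def StmtTRA : Prop := ∀ (W W' : Type) (f : W → W') (S : Set W) (A : W → W → Prop) (l : List W),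
  Function.Injective f → Disc S A l →
  Disc (f '' S) (fun x y => ∃ u v, A u v ∧ f u = x ∧ f v = y) (l.map f)

/-- PEND.  A pendant edge `w u` at the first corner of the face.  Proof.  Let `b = d :: t`, `u = vt d`.
New map on `D ⊕ Bool`, vertices `Option V`, edges `Option E`, faces `F`: `α' (inr c) = inr (!c)`,
`σ' (inl e) = inr false` if `σ e = d`, else `inl (σ e)`; `σ' (inr false) = inl d`; `σ' (inr true) = inr true`;
`vt' (inr false) = some (vt d)`, `vt' (inr true) = none`; `ed' (inr _) = none`; `fc' (inr _) = fc d`.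
The face permutation `φ' = σ' α'`: `φ' (inl e) = inr false` if `φ e = d`, else `inl (φ e)`;
`φ' (inr false) = inr true`, `φ' (inr true) = inl d`.  So the new face is
`inr true, inl d, inl t…, inr false`, with names `w, u, …, u`.  Euler: `V + 1`, `E + 1`.  The file
`Pool/Agent/Helper50/PL/Chord.lean` does the same for a chord (copy its bookkeeping). -/
def StmtPEND : Prop := ∀ (W : Type) (S : Set W) (A : W → W → Prop) (u : W) (l : List W) (w : W),
  Disc S A (u :: l) → w ∉ S → Disc (insert w S) (addE A w u) (w :: u :: l ++ [u])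

/-- EAR.  A chord over one boundary vertex.  Proof.  `b = d₀ :: d₁ :: d₂ :: t`.  Insert the chord at the
corners `d₀`, `d₂` (the map of `Pool/Agent/Helper50/PL/Chord.lean` with `a = d₀`, `b = d₂`: rotation `sg`,
reversal `al`; the theorem there hides the formula of the rotation, so copy the proof with a
stronger statement).  `φ' (inr false) = inl d₂`, `φ' (inl e) = inr false` if `φ e = d₀`,
`φ' (inl e) = inl (φ e)` if `φ e ≠ d₀, d₂`; so `inr false, inl d₂, inl t…` is a face, with the names
`u, v, l…`.  Simple: `u ≠ v` and `¬ A u v`. -/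
def StmtEAR : Prop := ∀ (W : Type) (S : Set W) (A : W → W → Prop) (u x v : W) (l : List W),
  Disc S A (u :: x :: v :: l) → u ≠ v → ¬ A u v → Disc S (addE A u v) (u :: v :: l)

/-- GROW (from ROTL, PEND, EAR).  A new vertex joined to consecutive boundary vertices.
Proof.  PEND at `u`: boundary `w, u, ms, v, rest, u`.  Then EAR with the first three elements
`w, u, m₁`, then `w, m₁, m₂`, …: every step drops the second element and adds the edge between `w` and
the third.  Induction on `ms` for the statement: if the boundary is `w :: x :: (ms ++ v :: r)` and `w` is not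
adjacent to `ms ++ [v]`, `w ∉ ms ++ [v]`, `(ms ++ [v]).Nodup` then the boundary becomes `w :: v :: r` and the
adjacency gets the pairs of `w` with `ms ++ [v]`. (`A x y` implies `x, y ∈ S`, so `w` has no neighbours
at the beginning except `u`.  Adjacency relations can be replaced by equal ones with `funext`.) -/
def StmtGROW : Prop := ∀ (W : Type) (S : Set W) (A : W → W → Prop) (u : W) (ms : List W) (v : W)
  (rest : List W) (w : W), Disc S A (u :: (ms ++ v :: rest)) → w ∉ S → (u :: (ms ++ [v])).Nodup →
  Disc (insert w S) (fun x y => A x y ∨ (x = w ∧ y ∈ u :: (ms ++ [v])) ∨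
    (y = w ∧ x ∈ u :: (ms ++ [v]))) (w :: v :: (rest ++ [u]))

/-- RUN (from ROTL, GROW).  Running a program.  Proof.  Induction on `P`.  One step: rotate the
boundary (`List.map_rotate`), write it as `u :: (ms ++ v :: rest)` where `u :: (ms ++ [v])` are the first
`p.2` elements, apply GROW with `w = nm s.n` (not in `S` and different from the names used: `InjOn`); the
names of the first `p.2` elements are different because the codes are and `InjOn`.  The new boundary
is the map of `(step s p).bd`, the new relation is the one of `(step s p).E`. -/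
def StmtRUN : Prop := ∀ (W : Type) (nm : ℕ → W) (S : Set W) (A : W → W → Prop) (m : ℕ)
  (P : List (ℕ × ℕ)) (s : St), okRun s P = true → m ≤ s.n → (∀ x ∈ s.bd, x < s.n) →
  Set.InjOn nm {i | i < s.n + P.length} → (∀ i, m ≤ i → i < s.n + P.length → nm i ∉ S) →
  Disc (S ∪ nm '' {i | m ≤ i ∧ i < s.n}) (fun x y => A x y ∨ edg nm s.E x y) (s.bd.map nm) →
  Disc (S ∪ nm '' {i | m ≤ i ∧ i < s.n + P.length})
    (fun x y => A x y ∨ edg nm (run s P).E x y) ((run s P).bd.map nm)

/-- TOP.  A graph contained in a plane map is planar.  Proof.  `nm : V → W` is bijective; rename the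
vertices (`vt' = nm ∘ vt`, again a `PM` with vertex type `W`), then the argument of
`Pool/Agent/Helper76/UB/Rot.lean` (theorem `rot`: from a simple plane map to a graph `H` on `W` with
`H.Adj = Adj M`, connected, with a rotation of genus 0; copy that file, its definitions `tg`, `Ad` are
`M.vt (M.α d)` and `∃ d, M.vt d = u ∧ tg M d = v`), and `G ≤ H`. -/
def StmtTOP : Prop := ∀ (W : Type) [Fintype W] (A : W → W → Prop) (l : List W) (G : SimpleGraph W),
  Disc Set.univ A l → (∀ u v, G.Adj u v → A u v) → Planar G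

/-- EDG.  Planar graphs have at most `3 n - 6` edges.  Proof.  `Planar G` gives (case `1 < |V|`)
`Helper28.PL.Planar G` by `Pool.Agent.Helper34.FF.Rot.planar_of_rot` (same definitions of `rev`,
`IsRotation`, `numFaces`), and `Helper28.PL.stmtMax` a simple triangulated map `M` with
`G.Adj u v → Adj M u v`.  `|D| = 2 |E|` (`ed` is 2-to-1), `|D| = 3 |F|` (every face has exactly three darts:
`φ³ = 1` and `φ d ≠ d` because there are no loops), `|V| + |F| = |E| + 2`, so `|E| = 3 |V| - 6`.  The edges of
`G` inject into `E`. -/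
def StmtEDG : Prop := ∀ (V : Type) [Fintype V] (G : SimpleGraph V), Planar G →
  3 ≤ Fintype.card V → G.edgeSet.ncard + 6 ≤ 3 * Fintype.card V

/-- TRI4.  The neighbours of a vertex of degree four in a planar graph with `3 n - 6` edges.
Proof.  As in EDG there is a triangulated simple map `M` with `G.Adj u v → Adj M u v`, and now
the numbers of edges are equal, so `G.Adj = Adj M`.  For a dart `e` at `x` with target `y` let `z` be the
target of `σ e`; then `y, z` are adjacent (`φ (α e) = σ e`, `φ³ = 1`, so `φ (σ e)` goes from `z` to `y`).  The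
four darts at `x` are one cycle of `σ`.  The targets of `σ e_a`, `σ⁻¹ e_a` are not `a`, `c`; they are
different (otherwise `σ² e_a = e_a`); so they are `b` and `d`.  Same for `c`. -/
def StmtTRI4 : Prop := ∀ (V : Type) [Fintype V] (G : SimpleGraph V), Planar G →
  3 ≤ Fintype.card V → G.edgeSet.ncard + 6 = 3 * Fintype.card V →
  ∀ x a b c d : V, (∀ y, G.Adj x y ↔ y = a ∨ y = b ∨ y = c ∨ y = d) →
  a ≠ b → a ≠ c → a ≠ d → b ≠ c → b ≠ d → c ≠ d → ¬ G.Adj a c →
  G.Adj a b ∧ G.Adj b c ∧ G.Adj c d ∧ G.Adj d a

/-! ## Group D: drawings -/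

/-- PCNT.  Numbers for the planarization.  Proof.  `|Option V| = |V| + 1`.  The edges of
`planarize G a b c d` are the images of the edges of `G` except `ac`, `bd`, and the four edges at `none`
(`a, b, c, d` are different: `a ≠ c`, `b ≠ d` because they are adjacent). -/
def StmtPCNT : Prop := ∀ (V : Type) [Fintype V] (G : SimpleGraph V) (a b c d : V), a ≠ b → a ≠ d →
  c ≠ b → c ≠ d → G.Adj a c → G.Adj b d →
  (planarize G a b c d).edgeSet.ncard = G.edgeSet.ncard + 2

/-- LOW (from EDG, PCNT).  Proof.  Induction on `k`: `|E| + 2 + 6 ≤ 3 (|V| + 1) + (k - 1)`. -/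
def StmtLOW : Prop := ∀ (k : ℕ) (V : Type) [Fintype V] (G : SimpleGraph V), Drawn k V G →
  3 ≤ Fintype.card V → G.edgeSet.ncard + 6 ≤ 3 * Fintype.card V + k

/-- PISO.  Planarity and isomorphic copies.  Proof.  Transport `H` and the rotation along `e`
(`SimpleGraph.map`/`comap` with `e`; darts correspond). -/
def StmtPISO : Prop := ∀ (V W : Type) (e : V ≃ W) (G : SimpleGraph V) (H : SimpleGraph W),
  (∀ u v, G.Adj u v → H.Adj (e u) (e v)) → Planar H → Planar G

/-- ONEP (from PISO).  Graphs with a drawing in which every edge is crossed at most once.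
`K` is a graph on `V ⊕ X` that contains the planarization.
Proof.  Induction on `n = |X|`, for all `V`.  `n = 0`: `V ⊕ X ≃ V`, nothing is crossed, PISO.  `n + 1`: choose
`x₀ : X`, `a, b, c, d = q x₀ 0, …, q x₀ 3`, `G' = planarize G a b c d` on `Option V`, `X' = {x // x ≠ x₀}`,
`q' x i = some (q x i)`: `QOK G' q'` by `QOK.dist`.  The equivalence `V ⊕ X ≃ Option V ⊕ X'` sends `inl v` to
`inl (some v)`, `inr x₀` to `inl none`, `inr x` to `inr x`.  The edges of `G'` that are not crossed: the edges
`uv` of `G` not in `q x₀` and not crossed in `q'`, they are edges of `K`; the edges `none – some (q x₀ i)`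
(never crossed in `q'`), they are the edges `inr x₀ – inl (q x₀ i)` of `K`. -/
def StmtONEP : Prop := ∀ (n : ℕ) (V X : Type) [Fintype X] (G : SimpleGraph V) (q : X → Fin 4 → V)
  (K : SimpleGraph (V ⊕ X)), Fintype.card X = n → QOK G q → HasPlan G q K.Adj → Planar K →
  Drawn n V G

/-- SDR (from TRA, ROTL, RUN).  Attaching a layer to a drawing.
Proof.  Let `A` be the relation of `CapDraw`, `W = (V ⊕ Fin t) ⊕ (X ⊕ Fin s)`,
`f : V ⊕ X → W` the inclusion, `nm : ℕ → W`: `nm i = inl (inl (ρ i))` for `i < 4`, `nm (cv j) = inl (inr j)`,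
`nm (cx y) = inr (inr y)` (choose with `Classical`; by `cvinj, cxinj, cvcx` this is well defined, and since
`cv, cx` have `t + s` different values in `[4, 4 + t + s)` all codes are used and `nm` is injective on
`[0, 4 + t + s)`; `ρ` is injective).  TRA, then RUN with `m = 4`, `S` = range of `f`, the state
`⟨4, [], [0,1,2,3]⟩`; the union is `univ`.  Rotate with `bd`.  `QOK`: old crossings by `CapDraw.qok`; new
ones by `qinj` (and `ρ` injective, so `Sum.map ρ id` is injective), `qadj` (`(lay up nn).Adj p p'` implies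
`(ext G ρ up nn).Adj` of the images; here `G.Adj (ρ i) (ρ (i + 1))` is the hypothesis `ring`), `qdist`;
an old and a new crossing edge are different by `qnew`.  `HasPlan`: an edge `inl u – inl v` of the new graph
is an edge of `G`, not crossed in `q` (if it were, it would be crossed in `extq`), so it is in `A`;
`inl (ρ i) – inr j` with `up i j` is in the program by `eup` (if `s(inl i, inr j)` were crossed in `lq`, then
`s(inl (ρ i), inr j)` would be crossed in `extq`); the same for `enn`, `ex`. -/
def StmtSDR : Prop := ∀ (V X : Type) (G : SimpleGraph V) (ρ : Fin 4 → V) (q : X → Fin 4 → V)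
  (t s : ℕ) (up : Fin 4 → Fin t → Bool) (nn : Fin t → Fin t → Bool) (ι : Fin 4 → Fin t)
  (lq : Fin s → Fin 4 → Fin 4 ⊕ Fin t) (P : List (ℕ × ℕ)) (cv : Fin t → ℕ) (cx : Fin s → ℕ),
  (∀ i, G.Adj (ρ i) (ρ (i + 1))) → CapDraw G ρ q → LayDraw up nn ι lq P cv cx →
  CapDraw (ext G ρ up nn) (fun i => Sum.inr (ι i)) (extq ρ q lq)

/-- FDR (from GROW, TRA, TOP, ONEP).  Closing a drawing.  Proof.  `X' = Option X`,
`q' none = ρ`, `q' (some x) = q x`.  `QOK (close G ρ) q'`: `ρ 0 – ρ 2`, `ρ 1 – ρ 3` are not edges of `G`
(hypotheses), so they are different from the old crossing edges.  TRA along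
`V ⊕ X → V ⊕ Option X`, then GROW with `w = inr none`, `u = ρ 0`, `ms = [ρ 1, ρ 2]`, `v = ρ 3`, `rest = []`.
`K` = the graph of the new relation (symmetric and irreflexive because it comes from a simple plane
map; or use `SimpleGraph.fromRel`), `HasPlan (close G ρ) q' K.Adj`, TOP, ONEP. -/
def StmtFDR : Prop := ∀ (V X : Type) [Fintype V] [Fintype X] (G : SimpleGraph V) (ρ : Fin 4 → V)
  (q : X → Fin 4 → V), CapDraw G ρ q → ¬ G.Adj (ρ 0) (ρ 2) → ¬ G.Adj (ρ 1) (ρ 3) →
  Drawn (Fintype.card X + 1) V (close G ρ)

/-! ## Group C: colourings -/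

/-- PERM.  Two maps with the same kernel differ by a permutation.  Proof.  `f i ↦ g i` is an
injective map from the range of `f` to `Fin 4`; extend it (`Equiv.extendSubtype` or a counting
argument), or `Function.Injective.exists…`; the case of four different values is `Equiv.ofBijective`. -/
def StmtPERM : Prop := ∀ f g : Fin 4 → Fin 4, (∀ i j, f i = f j ↔ g i = g j) →
  ∃ π : Equiv.Perm (Fin 4), ∀ i, π (g i) = f i

/-- SCOL (from PERM).  Attaching a layer.
Proof.  Glueing: if `c₁` is a proper colouring of `G` (except possibly on one edge) and `c₂` one of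
`lay up nn` (except possibly on one edge) and the ring patterns `c₁ ∘ ρ`, `fun i => c₂ (inl i)` have the same
kernel, then with `π` from PERM the map `inl v ↦ c₁ v`, `inr j ↦ π (c₂ (inr j))` is a proper colouring of
`ext G ρ up nn` (except on the corresponding edge).  Two maps with `Pat1` have the same kernel, and so
`Pat2`, `PatE i`, injective.  `noR`: a proper colouring `c` of `ext` restricts to a proper
colouring of `lay` (`inl i ↦ c (inl (ρ i))`; the ring edges are edges of `G` by `ring`) and of `G`; `l1`, `noR`.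
`pat1`, `pat2`: `l3a`, `l3b` and `pat1`/`pat2` of `G`.  `crit` for an edge of `ext` that is not in the new ring:
(i) `inl u – inl v`, not a ring edge of `G`: `crit` of `G`, `l2` (with `l1`); (ii) `inl (ρ i) – inl (ρ (i+1))`:
`critR`, `l6`; (iii) `inl (ρ i) – inr j` or `inr i – inr j`: `l4`, `pat1`/`pat2` of `G`.  `critR`: `l5`, and
`pat1`/`pat2`. -/
def StmtSCOL : Prop := ∀ (V : Type) (G : SimpleGraph V) (ρ : Fin 4 → V) (t : ℕ)
  (up : Fin 4 → Fin t → Bool) (nn : Fin t → Fin t → Bool) (ι : Fin 4 → Fin t),
  CapCol G ρ → LayCol up nn ι → CapCol (ext G ρ up nn) (fun i => Sum.inr (ι i))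

/-- FCOL.  Closing gives a 5-critical graph.  Proof.  Not 4-colourable: a proper 4-colouring of
`close G ρ` is a proper colouring of `G` with `ρ` rainbow (ring edges and diagonals), `noR`.  For every
edge `xy` of `close G ρ` there is `c` with `PropEx (close G ρ) x y c`: for `ρ 0 – ρ 2` use `pat1`, for
`ρ 1 – ρ 3` use `pat2`, for a ring edge `critR`, for the other edges `crit`.  A proper subgraph `H ≠ ⊤`
misses an edge `xy` (then `c` colours `H`) or a vertex `v` (and then all edges at `v`; `v` has an edge: hypothesis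
`hd`).  5-colourable: `c` for one edge `xy` (for instance `ρ 0 – ρ 1`), and recolour `x` with a fifth
colour. -/
def StmtFCOL : Prop := ∀ (V : Type) (G : SimpleGraph V) (ρ : Fin 4 → V), CapCol G ρ →
  (∀ v, ∃ w, G.Adj v w) → Critical5 (close G ρ)

/-! ## Group N: counting -/

/-- DEXT.  Degrees in `ext G ρ up nn`.  Proof.  The neighbours of `inl v` are `inl u`, `G.Adj v u`, and
for `v = ρ i` the `inr j` with `up i j`; the neighbours of `inr j` are the `inl (ρ i)` with `up i j` and the
`inr i` with `nn j i`. -/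
def StmtDEXT : Prop := ∀ (V : Type) [Fintype V] (G : SimpleGraph V) (ρ : Fin 4 → V) (t : ℕ)
  (up : Fin 4 → Fin t → Bool) (nn : Fin t → Fin t → Bool), Function.Injective ρ →
  (∀ i j, nn i j = nn j i) → (∀ i, nn i i = false) →
  (∀ v, (∀ i, v ≠ ρ i) → deg (ext G ρ up nn) (Sum.inl v) = deg G v) ∧
  (∀ i, deg (ext G ρ up nn) (Sum.inl (ρ i)) =
    deg G (ρ i) + (Finset.univ.filter fun j => up i j = true).card) ∧
  (∀ j, deg (ext G ρ up nn) (Sum.inr j) = ndeg up nn j)

/-- SCNT (from DEXT).  Proof.  `2 |E| = ∑ deg` for `G` and `ext G ρ up nn` (`deg` is `SimpleGraph.degree`):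
`2 |E'| = 2 |E| + ∑_i #{j : up i j} + ∑_j ndeg j = 2 |E| + 2 |up| + |nn|`. -/
def StmtSCNT : Prop := ∀ (V : Type) [Fintype V] (G : SimpleGraph V) (ρ : Fin 4 → V) (t : ℕ)
  (up : Fin 4 → Fin t → Bool) (nn : Fin t → Fin t → Bool) (ι : Fin 4 → Fin t) (x s m : ℕ)
  (h : Set V), 3 ≤ m → CapCnt G ρ x m h → LayCnt up nn ι s →
  CapCnt (ext G ρ up nn) (fun i => Sum.inr (ι i)) (x + s) 4 (Sum.inl '' h)

/-- FCNT.  Degrees and edges after closing.  Proof.  Two new edges; each ring vertex gets one new
neighbour. -/
def StmtFCNT : Prop := ∀ (V : Type) [Fintype V] (G : SimpleGraph V) (ρ : Fin 4 → V) (x : ℕ)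
  (h : Set V), CapCnt G ρ x 4 h → ¬ G.Adj (ρ 0) (ρ 2) → ¬ G.Adj (ρ 1) (ρ 3) →
  3 * Fintype.card V + x ≤ (close G ρ).edgeSet.ncard + 5 ∧
  (∀ v, v ∉ h → 5 ≤ deg (close G ρ) v) ∧ ∀ v ∈ h, deg (close G ρ) v = 4

/-! ## Group B: distances (crossing number one) -/

/-- SDIS.  Attaching an antiprism layer.  Proof.  Connected: every new vertex `j` is adjacent to the
ring vertex `j`.  `lev`: `inl v ↦ f v`, `inr j ↦ m + 1`.  A 4-clique of the new graph with all vertices
old is a 4-clique of `G`.  If it has a new vertex, all its old vertices are in the ring; at most two ring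
vertices (the ring has no diagonals: hypotheses, and three vertices of a 4-cycle are not
pairwise adjacent), at most two new vertices (`nnA` is a 4-cycle); and two adjacent ring vertices have
only one common new neighbour. -/
def StmtSDIS : Prop := ∀ (V : Type) (G : SimpleGraph V) (ρ : Fin 4 → V) (h : V) (m : ℕ),
  Function.Injective ρ → ¬ G.Adj (ρ 0) (ρ 2) → ¬ G.Adj (ρ 1) (ρ 3) → CapDist G ρ h m →
  CapDist (ext G ρ upA nnA) (fun i => Sum.inr i) (Sum.inl h) (m + 1)

/-- FDIS (from PCNT, TRI4).  In every drawing with one crossing the crossing is far from `h`.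
Proof.  Let `Planar (planarize (close G ρ) a b c d)`.  By PCNT it has `3 (n + 1) - 6` edges.  TRI4 with
`x = none` (its neighbours are `some a, …, some d`; `some a`, `some c` are not adjacent): `ab, bc, cd, da` are
edges of `close G ρ`, and so are `ac`, `bd`.  So `a, b, c, d` is a 4-clique; as `G` has none, one of its
edges is a diagonal of the ring, so one of its vertices is in the ring, with level `m`, and the others are
equal or adjacent to it, so their level is at least `m - 1`.  (The level function is also good for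
`close G ρ`: the ring vertices have the same level.)  A walk from `h` (level 0) to a vertex of level at least
`m - 1` has length at least `m - 1`; `close G ρ` is connected. -/
def StmtFDIS : Prop := ∀ (V : Type) [Fintype V] (G : SimpleGraph V) (ρ : Fin 4 → V) (h : V) (m : ℕ),
  CapDist G ρ h m → 3 ≤ Fintype.card V →
  (close G ρ).edgeSet.ncard + 5 = 3 * Fintype.card V →
  (close G ρ).Connected ∧ ∀ a b c d : V, a ≠ b → a ≠ d → c ≠ b → c ≠ d → (close G ρ).Adj a c →
    (close G ρ).Adj b d → Planar (planarize (close G ρ) a b c d) →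
    m ≤ (close G ρ).dist h a + 1 ∧ m ≤ (close G ρ).dist h b + 1 ∧
    m ≤ (close G ρ).dist h c + 1 ∧ m ≤ (close G ρ).dist h d + 1

/-! ## Group F: the data (finite checks) -/

/-- The antiprism layer. -/
def StmtACOL : Prop := LayCol upA nnA (fun i => i)
def StmtACNT : Prop := LayCnt upA nnA (fun i => i) 0
def StmtADRW : Prop := LayDraw upA nnA (fun i => i) qA PA (fun j : Fin 4 => (j : ℕ) + 4)
  (fun _ => 0)

/-- The layer with one crossing. -/
def StmtXCOL : Prop := LayCol upX nnX iX
def StmtXCNT : Prop := LayCnt upX nnX iX 1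
def StmtXDRW : Prop := LayDraw upX nnX iX qX PX cvX (fun _ => 12)

/-- The base graph. -/
def StmtBCOL : Prop := CapCol GB rB
def StmtBCNT : Prop := CapCnt GB rB 1 4 ∅
def StmtBDRW : Prop := CapDraw GB rB qB

/-- The wheel. -/
def StmtHCOL : Prop := CapCol GH rH
def StmtHCNT : Prop := CapCnt GH rH 0 3 {4}
def StmtHDRW : Prop := CapDraw GH rH qH
def StmtHDIS : Prop := CapDist GH rH 4 1

/-! ## Main theorems -/

def StmtMAINA : Prop := ∀ k N : ℕ, 2 ≤ k → ∃ (V : Type) (_ : Fintype V) (G : SimpleGraph V),
  N ≤ Fintype.card V ∧ Critical5 G ∧ CrossingNumber G k ∧ ∀ v, 5 ≤ deg G v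

def StmtMAINB : Prop := ∀ m : ℕ, ∃ (V : Type) (_ : Fintype V) (G : SimpleGraph V) (h : V),
  Critical5 G ∧ CrossingNumber G 1 ∧ G.Connected ∧ deg G h = 4 ∧ (∀ v, v ≠ h → 5 ≤ deg G v) ∧
  ∀ a b c d : V, a ≠ b → a ≠ d → c ≠ b → c ≠ d → G.Adj a c → G.Adj b d →
    Planar (planarize G a b c d) → m ≤ G.dist h a ∧ m ≤ G.dist h b ∧ m ≤ G.dist h c ∧
    m ≤ G.dist h d

end Pool.Agent.Helper85.CR
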