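import Pool.Agent.Helper88.CR.GoalsB
import Pool.Agent.Helper27.LG.BG
import Pool.Agent.Helper6.RR.BO

/-!
# Packet CR-SE: second moment over the classes
-/

set_option autoImplicit false

open Finset Filter Topology

open scoped Classical

namespace Pool.Agent.Helper85.CR

open Pool.Agent.Helper88.CR

/-! ### Residues -/

theorem card_one (p j : ℕ) (hp : 0 < p) : ((range p).filter (fun t => p ∣ t + j)).card = 1 := by
  rw [card_eq_one]
  refine ⟨(p - j % p) % p, ?_⟩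
  have hr : j % p < p := Nat.mod_lt _ hp
  have hd : ∀ t, p ∣ t + j ↔ p ∣ t + j % p := by
    intro t
    conv_lhs => rw [← Nat.mod_add_div j p, ← add_assoc]
    exact (Nat.dvd_add_left (dvd_mul_right p (j / p)))
  ext t
  rw [mem_filter, mem_range, mem_singleton, hd]
  constructor
  · rintro ⟨ht, k, hk⟩
    have hk2 : k < 2 := by
      by_contra hk2
      have : p * 2 ≤ p * k := Nat.mul_le_mul_left p (by omega)
      omega
    interval_cases k
    · have h0 : t = 0 := by omega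
      have h1 : j % p = 0 := by omega
      rw [h1, h0, Nat.sub_zero, Nat.mod_self]
    · have h1 : t = p - j % p := by omega
      rw [← h1, Nat.mod_eq_of_lt ht]
  · rintro rfl
    refine ⟨Nat.mod_lt _ hp, ?_⟩
    rcases Nat.eq_zero_or_pos (j % p) with h | h
    · rw [h, Nat.sub_zero, Nat.mod_self]
      exact dvd_zero p
    · rw [Nat.mod_eq_of_lt (by omega)]
      exact ⟨1, by omega⟩

/-- The indicator of `p ∤ t + j`. -/
noncomputable def wj (j p t : ℕ) : ℝ := if p ∣ t + j then 0 else 1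

theorem wj_nonneg (j p t : ℕ) : 0 ≤ wj j p t := by
  unfold wj
  split_ifs <;> norm_num

theorem wj_per (j p t : ℕ) : wj j p (t + p) = wj j p t := by
  unfold wj
  have : p ∣ t + p + j ↔ p ∣ t + j := by
    rw [show t + p + j = t + j + p by ring]
    exact (Nat.dvd_add_iff_left (dvd_refl p)).symm
  simp only [this]

theorem sum_wj (p j : ℕ) (hp : 0 < p) : ∑ t ∈ range p, wj j p t = p - 1 := by
  have h1 : ∀ t, wj j p t = 1 - (if p ∣ t + j then (1 : ℝ) else 0) := by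
    intro t
    unfold wj
    split_ifs <;> norm_num
  simp only [h1]
  rw [sum_sub_distrib, sum_boole, card_one p j hp]
  simp

theorem sum_wj_two (p j j' : ℕ) (hp : p.Prime) (hjj : j < j') :
    ∑ t ∈ range p, wj j p t * wj j' p t ≤
      ((p : ℝ) - 1) ^ 2 / p * (if p ∣ j' - j then 1 + 1 / ((p : ℝ) - 1) else 1) := by
  have hp2 : (2 : ℝ) ≤ p := by exact_mod_cast hp.two_le
  have hp0 : (0 : ℝ) < p := by linarith
  have hp1 : (0 : ℝ) < p - 1 := by linarith
  have hd : ∀ t, p ∣ t + j → (p ∣ t + j' ↔ p ∣ j' - j) := by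
    intro t ht
    have h1 : t + j' = (t + j) + (j' - j) := by omega
    rw [h1]
    exact (Nat.dvd_add_right ht)
  split_ifs with h
  · have h1 : ∑ t ∈ range p, wj j p t * wj j' p t ≤ ∑ t ∈ range p, wj j p t := by
      refine sum_le_sum fun t _ => ?_
      have h2 : wj j' p t ≤ 1 := by
        unfold wj
        split_ifs <;> norm_num
      calc wj j p t * wj j' p t ≤ wj j p t * 1 := mul_le_mul_of_nonneg_left h2 (wj_nonneg _ _ _)
        _ = wj j p t := mul_one _
    refine h1.trans (le_of_eq ?_)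
    rw [sum_wj p j hp.pos]
    field_simp
    ring
  · have h1 : ∀ t, wj j p t * wj j' p t = 1 - (if p ∣ t + j then (1 : ℝ) else 0) -
        (if p ∣ t + j' then (1 : ℝ) else 0) := by
      intro t
      unfold wj
      by_cases h2 : p ∣ t + j
      · have h3 : ¬ p ∣ t + j' := fun h4 => h ((hd t h2).1 h4)
        simp [h2, h3]
      · rw [if_neg h2, if_neg h2]
        split_ifs <;> norm_num
    simp only [h1]
    rw [sum_sub_distrib, sum_sub_distrib, sum_boole, sum_boole, card_one p j hp.pos,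
      card_one p j' hp.pos]
    simp only [sum_const, card_range, nsmul_eq_mul, mul_one, Nat.cast_one]
    rw [le_div_iff₀ hp0]
    nlinarith

/-! ### Squarefree numbers -/

/-- `∏_{p ∣ e} 1/(p-1)` for squarefree `e`. -/
noncomputable def gs (e : ℕ) : ℝ :=
  if ∏ p ∈ e.primeFactors, p = e then ∏ p ∈ e.primeFactors, (1 / ((p : ℝ) - 1)) else 0

theorem prime_sub_pos {p : ℕ} (hp : p.Prime) : (0 : ℝ) < (p : ℝ) - 1 := by
  have hp2 : (2 : ℝ) ≤ p := by exact_mod_cast hp.two_le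
  linarith

theorem gs_nonneg (e : ℕ) : 0 ≤ gs e := by
  unfold gs
  split_ifs
  · refine prod_nonneg fun p hp => ?_
    have := prime_sub_pos (Nat.prime_of_mem_primeFactors hp)
    positivity
  · exact le_rfl

theorem gs_prod (D : Finset ℕ) (hD : ∀ p ∈ D, p.Prime) :
    gs (∏ p ∈ D, p) = ∏ p ∈ D, (1 / ((p : ℝ) - 1)) := by
  unfold gs
  rw [Nat.primeFactors_prod hD, if_pos rfl]

theorem tot_prod (D : Finset ℕ) (hD : ∀ p ∈ D, p.Prime) :
    (Nat.totient (∏ p ∈ D, p) : ℝ) = ∏ p ∈ D, ((p : ℝ) - 1) := by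
  have h1 := Nat.totient_mul_prod_primeFactors (∏ p ∈ D, p)
  rw [Nat.primeFactors_prod hD] at h1
  have h2 : 0 < ∏ p ∈ D, p := prod_pos fun p hp => (hD p hp).pos
  have h3 : Nat.totient (∏ p ∈ D, p) = ∏ p ∈ D, (p - 1) := by
    rw [mul_comm] at h1
    exact Nat.eq_of_mul_eq_mul_left h2 h1
  rw [h3, Nat.cast_prod]
  refine prod_congr rfl fun p hp => ?_
  rw [Nat.cast_sub (hD p hp).one_le, Nat.cast_one]

theorem gs_tot {e : ℕ} (he : gs e ≠ 0) : gs e * Nat.totient e = 1 := by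
  unfold gs at he ⊢
  split_ifs at he ⊢ with h
  · have h1 := tot_prod e.primeFactors fun p hp => Nat.prime_of_mem_primeFactors hp
    rw [h] at h1
    rw [h1, ← prod_mul_distrib]
    refine prod_eq_one fun p hp => ?_
    have := prime_sub_pos (Nat.prime_of_mem_primeFactors hp)
    field_simp
  · exact absurd rfl he

theorem small_prime {p : ℕ} (hp : 5 ≤ p) : 1 / ((p : ℝ) - 1) ≤ (p : ℝ) ^ (-(3 / 4) : ℝ) := by
  have hp5 : (5 : ℝ) ≤ p := by exact_mod_cast hp
  have hp0 : (0 : ℝ) < p := by linarith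
  rw [Real.rpow_neg hp0.le, one_div]
  refine inv_anti₀ (Real.rpow_pos_of_pos hp0 _) ?_
  -- p^(3/4) ≤ p - 1, by p^3 ≤ (p-1)^4
  have h1 : (p : ℝ) ^ 3 ≤ ((p : ℝ) - 1) ^ 4 := by
    obtain ⟨x, hx⟩ : ∃ x : ℝ, x = (p : ℝ) - 5 := ⟨_, rfl⟩
    have hx0 : 0 ≤ x := by linarith
    have hpx : (p : ℝ) = x + 5 := by linarith
    rw [hpx]
    nlinarith [mul_nonneg hx0 hx0, mul_nonneg hx0 (mul_nonneg hx0 hx0),
      mul_nonneg (mul_nonneg hx0 hx0) (mul_nonneg hx0 hx0)]
  have h2 : ((p : ℝ) ^ (3 / 4 : ℝ)) = ((p : ℝ) ^ 3) ^ (1 / 4 : ℝ) := by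
    rw [← Real.rpow_natCast, ← Real.rpow_mul hp0.le]
    norm_num
  have h3 : ((p : ℝ) - 1) = (((p : ℝ) - 1) ^ 4) ^ (1 / 4 : ℝ) := by
    have h4 : (0 : ℝ) ≤ (p : ℝ) - 1 := by linarith
    rw [← Real.rpow_natCast (((p : ℝ) - 1)) 4, ← Real.rpow_mul h4]
    norm_num
  rw [h2, h3]
  exact Real.rpow_le_rpow (by positivity) h1 (by norm_num)

theorem any_prime {p : ℕ} (hp : p.Prime) :
    1 / ((p : ℝ) - 1) ≤ 2 * (p : ℝ) ^ (-(3 / 4) : ℝ) := by
  have hp2 : (2 : ℝ) ≤ p := by exact_mod_cast hp.two_le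
  have hp0 : (0 : ℝ) < p := by linarith
  have h1 : (p : ℝ) ^ (-1 : ℝ) ≤ (p : ℝ) ^ (-(3 / 4) : ℝ) :=
    Real.rpow_le_rpow_of_exponent_le (by linarith) (by norm_num)
  rw [Real.rpow_neg_one] at h1
  have h2 : 1 / ((p : ℝ) - 1) ≤ 2 * (p : ℝ)⁻¹ := by
    rw [div_le_iff₀ (by linarith)]
    field_simp
    linarith
  linarith

theorem gs_le (e : ℕ) : gs e ≤ 4 * (e : ℝ) ^ (-(3 / 4) : ℝ) := by
  have hpos : 0 ≤ 4 * (e : ℝ) ^ (-(3 / 4) : ℝ) := by positivity
  by_cases h : ∏ p ∈ e.primeFactors, p = e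
  · have hpr : ∀ p ∈ e.primeFactors, p.Prime := fun p hp => Nat.prime_of_mem_primeFactors hp
    have h1 : gs e = ∏ p ∈ e.primeFactors, (1 / ((p : ℝ) - 1)) := by
      unfold gs
      rw [if_pos h]
    have h2 : (e : ℝ) ^ (-(3 / 4) : ℝ) = ∏ p ∈ e.primeFactors, (p : ℝ) ^ (-(3 / 4) : ℝ) := by
      conv_lhs => rw [← h, Nat.cast_prod]
      exact (Real.finsetProd_rpow _ _ (fun p _ => Nat.cast_nonneg p) _).symm
    have h4 : ∏ p ∈ e.primeFactors, (if p ∈ ({2, 3} : Finset ℕ) then (2 : ℝ) else 1) ≤ 4 := by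
      have hc : (e.primeFactors ∩ ({2, 3} : Finset ℕ)).card ≤ 2 :=
        (card_le_card inter_subset_right).trans (by decide)
      rw [Finset.prod_ite_mem, prod_const]
      calc (2 : ℝ) ^ (e.primeFactors ∩ ({2, 3} : Finset ℕ)).card ≤ 2 ^ 2 :=
            pow_le_pow_right₀ (by norm_num) hc
        _ = 4 := by norm_num
    rw [h1, h2]
    calc ∏ p ∈ e.primeFactors, (1 / ((p : ℝ) - 1))
        ≤ ∏ p ∈ e.primeFactors, ((if p ∈ ({2, 3} : Finset ℕ) then (2 : ℝ) else 1) *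
          (p : ℝ) ^ (-(3 / 4) : ℝ)) := by
          refine prod_le_prod (fun p hp => ?_) (fun p hp => ?_)
          · have := prime_sub_pos (hpr p hp)
            positivity
          · have hp' := hpr p hp
            split_ifs with h5
            · exact any_prime hp'
            · rw [one_mul]
              apply small_prime
              have h6 := hp'.two_le
              simp only [mem_insert, mem_singleton, not_or] at h5
              rcases Nat.lt_or_ge p 5 with h7 | h7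
              · have h8 : p = 4 := by omega
                rw [h8] at hp'
                exact absurd hp' (by norm_num)
              · exact h7
      _ = (∏ p ∈ e.primeFactors, (if p ∈ ({2, 3} : Finset ℕ) then (2 : ℝ) else 1)) *
          ∏ p ∈ e.primeFactors, (p : ℝ) ^ (-(3 / 4) : ℝ) := prod_mul_distrib
      _ ≤ _ := mul_le_mul_of_nonneg_right h4 (prod_nonneg fun p _ => by positivity)
  · have h1 : gs e = 0 := by
      unfold gs
      rw [if_neg h]
    rw [h1]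
    exact hpos

/-- The Euler product over primes dividing `d`. -/
theorem prod_le_div (D : Finset ℕ) (hD : ∀ p ∈ D, p.Prime) (d : ℕ) (hd : d ≠ 0)
    (hDd : ∀ p ∈ D, p ∣ d) :
    ∏ p ∈ D, (1 + 1 / ((p : ℝ) - 1)) ≤ ∑ e ∈ d.divisors, gs e := by
  rw [Finset.prod_one_add]
  have h2 : ∀ E ∈ D.powerset, ∏ p ∈ E, (1 / ((p : ℝ) - 1)) = gs (∏ p ∈ E, p) := by
    intro E hE
    exact (gs_prod E fun p hp => hD p (mem_powerset.1 hE hp)).symm
  rw [sum_congr rfl h2]
  have hinj : Set.InjOn (fun E : Finset ℕ => ∏ p ∈ E, p) (D.powerset : Set (Finset ℕ)) := by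
    intro E hE F hF h
    have hE' := mem_powerset.1 (mem_coe.1 hE)
    have hF' := mem_powerset.1 (mem_coe.1 hF)
    have h3 := congrArg Nat.primeFactors h
    simp only at h3
    rwa [Nat.primeFactors_prod (fun p hp => hD p (hE' hp)),
      Nat.primeFactors_prod (fun p hp => hD p (hF' hp))] at h3
  rw [← sum_image (f := gs) (g := fun E : Finset ℕ => ∏ p ∈ E, p) hinj]
  refine sum_le_sum_of_subset_of_nonneg ?_ fun e _ _ => gs_nonneg e
  intro e he
  obtain ⟨E, hE, rfl⟩ := mem_image.1 he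
  have hE' := mem_powerset.1 hE
  rw [Nat.mem_divisors]
  refine ⟨?_, hd⟩
  exact Finset.prod_primes_dvd _ (fun p hp => (hD p (hE' hp)).prime) fun p hp => hDd p (hE' hp)

/-! ### Correlations -/

/-- The correlation of two points. -/
noncomputable def NN (T : Finset ℕ) (j j' : ℕ) : ℝ :=
  ∑ b ∈ range (∏ p ∈ T, p), ∏ p ∈ T, (wj j p b * wj j' p b)

theorem NN_eq (T : Finset ℕ) (hT : ∀ p ∈ T, p.Prime) (j j' : ℕ) :
    NN T j j' = ∏ p ∈ T, ∑ t ∈ range p, wj j p t * wj j' p t := by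
  refine (Pool.Agent.Helper6.RR.prod_per (fun p t => wj j p t * wj j' p t) T hT ?_).2
  intro p _ t
  simp only [wj_per]

theorem NN_symm (T : Finset ℕ) (j j' : ℕ) : NN T j j' = NN T j' j := by
  unfold NN
  refine sum_congr rfl fun b _ => prod_congr rfl fun p _ => mul_comm _ _

theorem NN_diag (T : Finset ℕ) (hT : ∀ p ∈ T, p.Prime) (j : ℕ) :
    NN T j j = (Nat.totient (∏ p ∈ T, p) : ℝ) := by
  rw [NN_eq T hT, tot_prod T hT]
  refine prod_congr rfl fun p hp => ?_
  rw [← sum_wj p j (hT p hp).pos]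
  refine sum_congr rfl fun t _ => ?_
  unfold wj
  split_ifs <;> norm_num

theorem NN_off (T : Finset ℕ) (hT : ∀ p ∈ T, p.Prime) {j j' : ℕ} (hjj : j < j') :
    NN T j j' ≤ (Nat.totient (∏ p ∈ T, p) : ℝ) ^ 2 / (∏ p ∈ T, p : ℕ) *
      ∑ e ∈ (j' - j).divisors, gs e := by
  rw [NN_eq T hT]
  have h1 : ∏ p ∈ T, ∑ t ∈ range p, wj j p t * wj j' p t ≤
      ∏ p ∈ T, (((p : ℝ) - 1) ^ 2 / p * (if p ∣ j' - j then 1 + 1 / ((p : ℝ) - 1) else 1)) := by
    refine prod_le_prod (fun p _ => sum_nonneg fun t _ => mul_nonneg (wj_nonneg _ _ _)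
      (wj_nonneg _ _ _)) fun p hp => sum_wj_two p j j' (hT p hp) hjj
  refine h1.trans ?_
  rw [prod_mul_distrib, prod_div_distrib, prod_pow, ← tot_prod T hT, ← Nat.cast_prod,
    ← prod_filter]
  refine mul_le_mul_of_nonneg_left ?_ (by positivity)
  exact prod_le_div _ (fun p hp => hT p (mem_filter.1 hp).1) _ (by omega)
    fun p hp => (mem_filter.1 hp).2

theorem cop_eq (T : Finset ℕ) (hT : ∀ p ∈ T, p.Prime) (b j : ℕ) :
    (if Nat.Coprime (b + j) (∏ p ∈ T, p) then (1 : ℝ) else 0) = ∏ p ∈ T, wj j p b := by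
  split_ifs with h
  · symm
    refine prod_eq_one fun p hp => ?_
    unfold wj
    rw [if_neg]
    intro hd
    have h1 := Nat.Coprime.coprime_dvd_left hd (Nat.Coprime.coprime_dvd_right
      (dvd_prod_of_mem (fun p => p) hp) h)
    exact (hT p hp).one_lt.ne' ((Nat.coprime_self p).1 h1)
  · symm
    rw [Nat.coprime_prod_right_iff] at h
    push Not at h
    obtain ⟨p, hp, h1⟩ := h
    refine prod_eq_zero hp ?_
    unfold wj
    rw [if_pos]
    have h1' : ¬ Nat.Coprime (b + j) p := h1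
    rw [Nat.coprime_comm, (hT p hp).coprime_iff_not_dvd, not_not] at h1'
    exact h1'

/-- The second moment. -/
theorem second (T : Finset ℕ) (hT : ∀ p ∈ T, p.Prime) (A : Finset ℕ) :
    ∑ b ∈ range (∏ p ∈ T, p), (((A.filter (fun j => Nat.Coprime (b + j) (∏ p ∈ T, p))).card :
      ℝ)) ^ 2 ≤ A.card * (Nat.totient (∏ p ∈ T, p) : ℝ) +
        2 * ∑ j ∈ A, ∑ j' ∈ A.filter (fun j' => j < j'), NN T j j' := by
  have h1 : ∀ b, (((A.filter (fun j => Nat.Coprime (b + j) (∏ p ∈ T, p))).card : ℝ)) ^ 2 =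
      ∑ j ∈ A, ∑ j' ∈ A, ∏ p ∈ T, (wj j p b * wj j' p b) := by
    intro b
    rw [← sum_boole, sq, sum_mul_sum]
    refine sum_congr rfl fun j _ => sum_congr rfl fun j' _ => ?_
    rw [cop_eq T hT, cop_eq T hT, prod_mul_distrib]
  simp only [h1]
  rw [sum_comm]
  have h2 : ∀ j ∈ A, ∑ b ∈ range (∏ p ∈ T, p), ∑ j' ∈ A, ∏ p ∈ T, (wj j p b * wj j' p b) =
      ∑ j' ∈ A, NN T j j' := by
    intro j _
    rw [sum_comm]
    rfl
  rw [sum_congr rfl h2]
  have h3 : ∀ j ∈ A, ∑ j' ∈ A, NN T j j' = NN T j j +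
      ∑ j' ∈ A, (if j < j' then NN T j j' else 0) + ∑ j' ∈ A, (if j' < j then NN T j j' else 0) := by
    intro j hj
    have h4 : NN T j j = ∑ j' ∈ A, (if j = j' then NN T j j' else 0) := by
      rw [sum_ite_eq, if_pos hj]
    rw [h4, ← sum_add_distrib, ← sum_add_distrib]
    refine sum_congr rfl fun j' _ => ?_
    rcases lt_trichotomy j j' with h | h | h
    · rw [if_neg h.ne, if_pos h, if_neg h.not_gt]
      ring
    · rw [if_pos h, if_neg (by omega), if_neg (by omega)]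
      ring
    · rw [if_neg h.ne', if_neg h.not_gt, if_pos h]
      ring
  rw [sum_congr rfl h3, sum_add_distrib, sum_add_distrib]
  have h5 : ∑ j ∈ A, ∑ j' ∈ A, (if j' < j then NN T j j' else 0) =
      ∑ j ∈ A, ∑ j' ∈ A, (if j < j' then NN T j j' else 0) := by
    rw [sum_comm]
    refine sum_congr rfl fun j _ => sum_congr rfl fun j' _ => ?_
    rw [NN_symm]
  have h6 : ∑ j ∈ A, NN T j j = A.card * (Nat.totient (∏ p ∈ T, p) : ℝ) := by
    rw [sum_congr rfl fun j _ => NN_diag T hT j, sum_const, nsmul_eq_mul]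
  have h7 : ∑ j ∈ A, ∑ j' ∈ A.filter (fun j' => j < j'), NN T j j' =
      ∑ j ∈ A, ∑ j' ∈ A, (if j < j' then NN T j j' else 0) :=
    sum_congr rfl fun j _ => sum_filter _ _
  rw [h5, h6, h7]
  linarith

/-! ### Counting -/

/-- The points of a progression in the interval. -/
theorem kap_le {u H : ℕ} {j e : ℕ} (hj : u < j) (he : 1 ≤ e) :
    (((((Ioc u (u + H)).filter Nat.Prime).filter (fun j' => j < j')).filter
      (fun j' => e ∣ j' - j)).card) ≤
      ((Icc 1 (H / e)).filter (fun t => (e * t + j).Prime)).card := by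
  refine card_le_card_of_injOn (fun j' => (j' - j) / e) ?_ ?_
  · intro j' hj'
    rw [mem_coe, mem_filter, mem_filter, mem_filter, mem_Ioc] at hj'
    obtain ⟨⟨⟨hj1, hj2⟩, hj3⟩, hj4⟩ := hj'
    have h1 : e * ((j' - j) / e) = j' - j := Nat.mul_div_cancel' hj4
    rw [mem_coe, mem_filter, mem_Icc]
    refine ⟨⟨?_, ?_⟩, ?_⟩
    · exact Nat.div_pos (Nat.le_of_dvd (by omega) hj4) he
    · exact Nat.div_le_div_right (by omega)
    · simp only
      rw [h1, Nat.sub_add_cancel hj3.le]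
      exact hj2
  · intro a ha b hb hab
    rw [mem_coe, mem_filter, mem_filter, mem_filter, mem_Ioc] at ha hb
    simp only at hab
    have h1 : e * ((a - j) / e) = a - j := Nat.mul_div_cancel' ha.2
    have h2 : e * ((b - j) / e) = b - j := Nat.mul_div_cancel' hb.2
    rw [hab, h2] at h1
    have h3 := ha.1.2
    have h4 := hb.1.2
    omega

theorem log_le_eight {x : ℝ} (hx : 0 ≤ x) : Real.log x ≤ 8 * x ^ (1 / 8 : ℝ) := by
  have h1 := Real.log_le_rpow_div hx (ε := (1 / 8 : ℝ)) (by norm_num)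
  linarith

/-- The bound for one `e`. -/
theorem one_e (C₀ : ℝ) (hC₀ : 0 < C₀) (hBG : ∀ d b N : ℕ, 1 ≤ d → 2 ≤ N → Nat.Coprime b d →
    (((Icc 1 N).filter (fun t => (d * t + b).Prime)).card : ℝ)
      ≤ C₀ * (N / Real.log N) * (d / (Nat.totient d : ℝ))) {u H : ℕ} (hH : 16 ≤ H) (hHu : H ≤ u)
    {j e : ℕ} (hj : u < j) (hjp : j.Prime) (he : 1 ≤ e) (heH : e ≤ H) :
    gs e * (((((Ioc u (u + H)).filter Nat.Prime).filter (fun j' => j < j')).filter
      (fun j' => e ∣ j' - j)).card : ℝ) ≤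
      (64 * C₀ + 32) * (H / Real.log H) * (e : ℝ) ^ (-(3 / 2) : ℝ) := by
  have hHr : (16 : ℝ) ≤ H := by exact_mod_cast hH
  have hH0 : (0 : ℝ) < H := by linarith
  have hlog : 0 < Real.log H := Real.log_pos (by linarith)
  have her : (1 : ℝ) ≤ e := by exact_mod_cast he
  have he0 : (0 : ℝ) < e := by linarith
  have hep : 0 < (e : ℝ) ^ (-(3 / 2) : ℝ) := Real.rpow_pos_of_pos he0 _
  have hep' : 0 < (e : ℝ) ^ (-(3 / 4) : ℝ) := Real.rpow_pos_of_pos he0 _
  have hg := gs_le e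
  have hg0 := gs_nonneg e
  by_cases hgz : gs e = 0
  · rw [hgz, zero_mul]
    positivity
  obtain ⟨κ, hκ⟩ : ∃ κ : ℝ, κ = ((((((Ioc u (u + H)).filter Nat.Prime).filter
      (fun j' => j < j')).filter (fun j' => e ∣ j' - j)).card : ℕ) : ℝ) := ⟨_, rfl⟩
  rw [← hκ]
  have hk : κ ≤ (((Icc 1 (H / e)).filter (fun t => (e * t + j).Prime)).card : ℝ) := by
    rw [hκ]
    exact_mod_cast kap_le hj he
  rcases Nat.lt_or_ge H (e ^ 2) with h | h
  · -- large `e`
    have h1 : κ ≤ H / e := by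
      refine hk.trans ?_
      have h2 : ((Icc 1 (H / e)).filter (fun t => (e * t + j).Prime)).card ≤ H / e := by
        refine (card_filter_le _ _).trans ?_
        rw [Nat.card_Icc, Nat.add_sub_cancel]
      calc (((Icc 1 (H / e)).filter (fun t => (e * t + j).Prime)).card : ℝ) ≤ ((H / e : ℕ) : ℝ) := by
            exact_mod_cast h2
        _ ≤ (H : ℝ) / e := Nat.cast_div_le
    have h3 : (H : ℝ) ≤ (e : ℝ) ^ 2 := by exact_mod_cast h.le
    -- log H ≤ 8 e^(1/4)
    have h4 : Real.log H ≤ 8 * (e : ℝ) ^ (1 / 4 : ℝ) := by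
      refine (log_le_eight hH0.le).trans ?_
      have h5 : (H : ℝ) ^ (1 / 8 : ℝ) ≤ ((e : ℝ) ^ 2) ^ (1 / 8 : ℝ) :=
        Real.rpow_le_rpow hH0.le h3 (by norm_num)
      have h6 : ((e : ℝ) ^ 2) ^ (1 / 8 : ℝ) = (e : ℝ) ^ (1 / 4 : ℝ) := by
        rw [← Real.rpow_natCast, ← Real.rpow_mul he0.le]
        norm_num
      rw [h6] at h5
      linarith
    have h7 : gs e * κ ≤ 4 * (e : ℝ) ^ (-(3 / 4) : ℝ) * (H / e) :=
      mul_le_mul hg h1 (by rw [hκ]; positivity) (by positivity)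
    have h8 : 4 * (e : ℝ) ^ (-(3 / 4) : ℝ) * (H / e) =
        4 * H * ((e : ℝ) ^ (-(1 / 4) : ℝ) * (e : ℝ) ^ (-(3 / 2) : ℝ)) := by
      rw [← Real.rpow_add he0]
      have h9 : (e : ℝ) ^ (-(1 / 4) + -(3 / 2) : ℝ) = (e : ℝ) ^ (-(3 / 4) : ℝ) * (e : ℝ)⁻¹ := by
        rw [← Real.rpow_neg_one, ← Real.rpow_add he0]
        norm_num
      rw [h9]
      field_simp
    have h10 : (e : ℝ) ^ (-(1 / 4) : ℝ) ≤ 8 / Real.log H := by
      rw [Real.rpow_neg he0.le, inv_le_comm₀ (Real.rpow_pos_of_pos he0 _) (by positivity), inv_div,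
        div_le_iff₀ (by norm_num)]
      linarith
    rw [h8] at h7
    refine h7.trans ?_
    have h11 : 4 * (H : ℝ) * ((e : ℝ) ^ (-(1 / 4) : ℝ) * (e : ℝ) ^ (-(3 / 2) : ℝ)) ≤
        4 * (H : ℝ) * (8 / Real.log H * (e : ℝ) ^ (-(3 / 2) : ℝ)) := by gcongr
    refine h11.trans ?_
    have h12 : 4 * (H : ℝ) * (8 / Real.log H * (e : ℝ) ^ (-(3 / 2) : ℝ)) =
        32 * (H / Real.log H) * (e : ℝ) ^ (-(3 / 2) : ℝ) := by
      field_simp
      ring
    rw [h12]
    have h13 : 0 ≤ 64 * C₀ * (H / Real.log H) * (e : ℝ) ^ (-(3 / 2) : ℝ) := by positivity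
    linarith
  · -- small `e`
    have hN : e ≤ H / e := (Nat.le_div_iff_mul_le he).2 (by rw [← sq]; exact h)
    have hN2 : 2 ≤ H / e := by
      rcases Nat.lt_or_ge e 2 with h1 | h1
      · have : e = 1 := by omega
        rw [this, Nat.div_one]
        omega
      · omega
    have hcop : Nat.Coprime j e := (Nat.Prime.coprime_iff_not_dvd hjp).2 fun hd => by
      have := Nat.le_of_dvd he hd
      omega
    have h1 := hBG e j (H / e) he hN2 hcop
    have hNle : ((H / e : ℕ) : ℝ) ≤ (H : ℝ) / e := Nat.cast_div_le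
    -- log N ≥ (log H)/4
    have hNr : (H : ℝ) ^ (1 / 4 : ℝ) ≤ ((H / e : ℕ) : ℝ) := by
      obtain ⟨y, hy⟩ : ∃ y : ℝ, y = (H : ℝ) ^ (1 / 4 : ℝ) := ⟨_, rfl⟩
      have hy0 : 0 < y := by rw [hy]; exact Real.rpow_pos_of_pos hH0 _
      have hy4 : y ^ 4 = H := by
        rw [hy, ← Real.rpow_natCast, ← Real.rpow_mul hH0.le]
        norm_num
      have hy2 : 2 ≤ y := by
        by_contra hcon
        rw [not_le] at hcon
        have : y ^ 4 < 2 ^ 4 := pow_lt_pow_left₀ hcon hy0.le (by norm_num)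
        rw [hy4] at this
        linarith
      have h2 : (H : ℝ) < (e : ℝ) * (((H / e : ℕ) : ℝ) + 1) := by
        have := Nat.lt_mul_div_succ H (show 0 < e by omega)
        have h3 : ((H : ℕ) : ℝ) < ((e * (H / e + 1) : ℕ) : ℝ) := by exact_mod_cast this
        push_cast at h3
        exact h3
      have h3 : (e : ℝ) ≤ ((H / e : ℕ) : ℝ) := by exact_mod_cast hN
      obtain ⟨N, hNN⟩ : ∃ N : ℝ, N = ((H / e : ℕ) : ℝ) := ⟨_, rfl⟩
      rw [← hNN] at h2 h3 ⊢
      rw [← hy]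
      by_contra hcon
      rw [not_le] at hcon
      have hN0 : 0 < N := lt_of_lt_of_le he0 h3
      have h4 : (e : ℝ) * (N + 1) ≤ N * (N + 1) := mul_le_mul_of_nonneg_right h3 (by linarith)
      have h5 : N * (N + 1) ≤ y * (y + 1) := by nlinarith
      have h6 : y * (y + 1) ≤ y ^ 4 := by nlinarith [pow_pos hy0 3, pow_pos hy0 2]
      rw [hy4] at h6
      linarith
    have hlogN : Real.log H / 4 ≤ Real.log ((H / e : ℕ) : ℝ) := by
      have h2 := Real.log_le_log (Real.rpow_pos_of_pos hH0 _) hNr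
      rw [Real.log_rpow hH0] at h2
      linarith
    have hlogN0 : 0 < Real.log ((H / e : ℕ) : ℝ) := by
      have : 0 < Real.log H / 4 := by positivity
      linarith
    have h2 : ((H / e : ℕ) : ℝ) / Real.log ((H / e : ℕ) : ℝ) ≤ 4 * (H / Real.log H) / e := by
      rw [div_le_div_iff₀ hlogN0 he0]
      calc ((H / e : ℕ) : ℝ) * e ≤ (H : ℝ) / e * e := mul_le_mul_of_nonneg_right hNle he0.le
        _ = H := by field_simp
        _ = 4 * (H / Real.log H) * (Real.log H / 4) := by field_simp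
        _ ≤ 4 * (H / Real.log H) * Real.log ((H / e : ℕ) : ℝ) :=
            mul_le_mul_of_nonneg_left hlogN (by positivity)
    have hφ := gs_tot hgz
    have hφ0 : (0 : ℝ) < Nat.totient e := by exact_mod_cast Nat.totient_pos.2 he
    have h3 : (e : ℝ) / Nat.totient e = e * gs e := by
      rw [div_eq_iff hφ0.ne', mul_assoc, hφ, mul_one]
    have h4 : κ ≤ C₀ * (4 * (H / Real.log H) / e) * (e * gs e) := by
      refine (hk.trans h1).trans ?_
      rw [h3]
      refine mul_le_mul_of_nonneg_right (mul_le_mul_of_nonneg_left h2 hC₀.le) (by positivity)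
    have h5 : C₀ * (4 * (H / Real.log H) / e) * (e * gs e) = 4 * C₀ * (H / Real.log H) * gs e := by
      field_simp
    rw [h5] at h4
    have h6 : gs e * κ ≤ gs e * (4 * C₀ * (H / Real.log H) * gs e) :=
      mul_le_mul_of_nonneg_left h4 hg0
    have h7 : gs e * gs e ≤ 16 * (e : ℝ) ^ (-(3 / 2) : ℝ) := by
      have h8 : gs e * gs e ≤ (4 * (e : ℝ) ^ (-(3 / 4) : ℝ)) * (4 * (e : ℝ) ^ (-(3 / 4) : ℝ)) :=
        mul_le_mul hg hg hg0 (by positivity)
      have h9 : (e : ℝ) ^ (-(3 / 4) : ℝ) * (e : ℝ) ^ (-(3 / 4) : ℝ) = (e : ℝ) ^ (-(3 / 2) : ℝ) := by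
        rw [← Real.rpow_add he0]
        norm_num
      calc gs e * gs e ≤ _ := h8
        _ = 16 * ((e : ℝ) ^ (-(3 / 4) : ℝ) * (e : ℝ) ^ (-(3 / 4) : ℝ)) := by ring
        _ = _ := by rw [h9]
    calc gs e * κ ≤ gs e * (4 * C₀ * (H / Real.log H) * gs e) := h6
      _ = 4 * C₀ * (H / Real.log H) * (gs e * gs e) := by ring
      _ ≤ 4 * C₀ * (H / Real.log H) * (16 * (e : ℝ) ^ (-(3 / 2) : ℝ)) :=
          mul_le_mul_of_nonneg_left h7 (by positivity)
      _ = 64 * C₀ * (H / Real.log H) * (e : ℝ) ^ (-(3 / 2) : ℝ) := by ring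
      _ ≤ _ := by
          have h13 : 0 ≤ 32 * (H / Real.log H) * (e : ℝ) ^ (-(3 / 2) : ℝ) := by positivity
          linarith

/-- **Packet CR-SE.** -/
theorem se : StmtSE := by
  obtain ⟨C₀, hC₀, hBG⟩ := Pool.Agent.Helper27.LG.bg
  have hsum : Summable (fun e : ℕ => (e : ℝ) ^ (-(3 / 2) : ℝ)) :=
    Real.summable_nat_rpow.2 (by norm_num)
  obtain ⟨K, hK⟩ : ∃ K : ℝ, K = ∑' e : ℕ, (e : ℝ) ^ (-(3 / 2) : ℝ) := ⟨_, rfl⟩
  have hK0 : 0 ≤ K := by
    rw [hK]
    exact tsum_nonneg fun e => by positivity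
  obtain ⟨C₁, hC₁⟩ : ∃ C₁ : ℝ, C₁ = (64 * C₀ + 32) * K := ⟨_, rfl⟩
  have hC₁0 : 0 ≤ C₁ := by rw [hC₁]; positivity
  refine ⟨1 + C₀ + 2 * C₀ * C₁, by
    have : 0 ≤ C₀ * C₁ := by positivity
    linarith, 16, ?_⟩
  intro u H hH hHu T hT
  have hHr : (16 : ℝ) ≤ H := by exact_mod_cast hH
  have hH0 : (0 : ℝ) < H := by linarith
  have hlog : 0 < Real.log H := Real.log_pos (by linarith)
  obtain ⟨A, hA⟩ : ∃ A : Finset ℕ, A = (Ioc u (u + H)).filter Nat.Prime := ⟨_, rfl⟩
  obtain ⟨q, hq⟩ : ∃ q : ℕ, q = ∏ p ∈ T, p := ⟨_, rfl⟩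
  have h1 : ∀ b, (Ioc u (u + H)).filter (fun j => j.Prime ∧ Nat.Coprime (b + j) (∏ p ∈ T, p)) =
      A.filter (fun j => Nat.Coprime (b + j) (∏ p ∈ T, p)) := by
    intro b
    rw [hA, filter_filter]
  simp only [h1]
  refine (second T hT A).trans ?_
  rw [← hq]
  -- the number of primes
  have hAc : (A.card : ℝ) ≤ C₀ * (H / Real.log H) := by
    have h2 := hBG 1 u H le_rfl (by omega) (Nat.coprime_one_right u)
    have h3 : A.card ≤ ((Icc 1 H).filter (fun t => (1 * t + u).Prime)).card := by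
      refine card_le_card_of_injOn (fun j => j - u) ?_ ?_
      · intro j hj
        rw [hA, mem_coe, mem_filter, mem_Ioc] at hj
        rw [mem_coe, mem_filter, mem_Icc]
        refine ⟨⟨?_, ?_⟩, ?_⟩
        · show 1 ≤ j - u
          omega
        · show j - u ≤ H
          omega
        · show (1 * (j - u) + u).Prime
          rw [one_mul, Nat.sub_add_cancel hj.1.1.le]
          exact hj.2
      · intro a ha b hb hab
        rw [hA, mem_coe, mem_filter, mem_Ioc] at ha hb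
        simp only at hab
        omega
    have h4 : (A.card : ℝ) ≤ (((Icc 1 H).filter (fun t => (1 * t + u).Prime)).card : ℝ) := by
      exact_mod_cast h3
    refine h4.trans (h2.trans (le_of_eq ?_))
    rw [Nat.totient_one]
    norm_num
  have hP0 : (0 : ℝ) ≤ (Nat.totient q : ℝ) ^ 2 / (q : ℕ) := by positivity
  -- the sum over the larger points
  have hoff : ∀ j ∈ A, ∑ j' ∈ A.filter (fun j' => j < j'), NN T j j' ≤
      (Nat.totient q : ℝ) ^ 2 / (q : ℕ) * (C₁ * (H / Real.log H)) := by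
    intro j hj
    have hj' := hj
    rw [hA, mem_filter, mem_Ioc] at hj'
    have h2 : ∀ j' ∈ A.filter (fun j' => j < j'), NN T j j' ≤
        (Nat.totient q : ℝ) ^ 2 / (q : ℕ) *
          ∑ e ∈ Icc 1 H, (if e ∣ j' - j then gs e else 0) := by
      intro j' hj2
      rw [mem_filter] at hj2
      have hj3 := hj2.1
      rw [hA, mem_filter, mem_Ioc] at hj3
      have h3 := NN_off T hT hj2.2
      rw [← hq] at h3
      refine h3.trans (mul_le_mul_of_nonneg_left ?_ hP0)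
      rw [← sum_filter]
      refine sum_le_sum_of_subset_of_nonneg ?_ fun e _ _ => gs_nonneg e
      intro e he
      rw [Nat.mem_divisors] at he
      rw [mem_filter, mem_Icc]
      have h4 := Nat.le_of_dvd (by omega) he.1
      have h5 := Nat.pos_of_dvd_of_pos he.1 (by omega)
      exact ⟨⟨h5, by omega⟩, he.1⟩
    refine (sum_le_sum h2).trans ?_
    rw [← mul_sum]
    refine mul_le_mul_of_nonneg_left ?_ hP0
    rw [sum_comm]
    have h3 : ∀ e ∈ Icc 1 H, ∑ j' ∈ A.filter (fun j' => j < j'), (if e ∣ j' - j then gs e else 0) ≤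
        (64 * C₀ + 32) * (H / Real.log H) * (e : ℝ) ^ (-(3 / 2) : ℝ) := by
      intro e he
      rw [mem_Icc] at he
      rw [← sum_filter, sum_const, nsmul_eq_mul, mul_comm, hA]
      exact one_e C₀ hC₀ hBG hH hHu hj'.1.1 hj'.2 he.1 he.2
    refine (sum_le_sum h3).trans ?_
    rw [← mul_sum]
    have h4 : ∑ e ∈ Icc 1 H, (e : ℝ) ^ (-(3 / 2) : ℝ) ≤ K := by
      rw [hK]
      exact hsum.sum_le_tsum _ fun e _ => by positivity
    calc (64 * C₀ + 32) * (H / Real.log H) * ∑ e ∈ Icc 1 H, (e : ℝ) ^ (-(3 / 2) : ℝ)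
        ≤ (64 * C₀ + 32) * (H / Real.log H) * K := mul_le_mul_of_nonneg_left h4 (by positivity)
      _ = C₁ * (H / Real.log H) := by rw [hC₁]; ring
  have h5 : ∑ j ∈ A, ∑ j' ∈ A.filter (fun j' => j < j'), NN T j j' ≤
      C₀ * C₁ * ((H / Real.log H) ^ 2 * ((Nat.totient q : ℝ) ^ 2 / (q : ℕ))) := by
    refine (sum_le_sum hoff).trans ?_
    rw [sum_const, nsmul_eq_mul]
    calc (A.card : ℝ) * ((Nat.totient q : ℝ) ^ 2 / (q : ℕ) * (C₁ * (H / Real.log H)))
        ≤ (C₀ * (H / Real.log H)) * ((Nat.totient q : ℝ) ^ 2 / (q : ℕ) *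
          (C₁ * (H / Real.log H))) := mul_le_mul_of_nonneg_right hAc (by positivity)
      _ = _ := by ring
  have h6 : (A.card : ℝ) * Nat.totient q ≤ C₀ * (H / Real.log H * Nat.totient q) := by
    calc (A.card : ℝ) * Nat.totient q ≤ C₀ * (H / Real.log H) * Nat.totient q :=
          mul_le_mul_of_nonneg_right hAc (by positivity)
      _ = _ := by ring
  obtain ⟨X, hX⟩ : ∃ X : ℝ, X = (H / Real.log H) ^ 2 * ((Nat.totient q : ℝ) ^ 2 / (q : ℕ)) :=
    ⟨_, rfl⟩
  obtain ⟨Y, hY⟩ : ∃ Y : ℝ, Y = H / Real.log H * (Nat.totient q : ℝ) := ⟨_, rfl⟩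
  have hX0 : 0 ≤ X := by rw [hX]; positivity
  have hY0 : 0 ≤ Y := by rw [hY]; positivity
  rw [← hX, ← hY]
  rw [← hX] at h5
  rw [← hY] at h6
  have h7 : 0 ≤ C₀ * C₁ * Y := by positivity
  have h8 : 0 ≤ C₀ * X := by positivity
  nlinarith

end Pool.Agent.Helper85.CR
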