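import Pool.Agent.Helper39.CR.GoalsT

/-!
# Project CAR stage 3 (MP_d97caa_an), packet TFIXU (helper85)
-/

set_option autoImplicit false

namespace Pool.Agent.Helper85.CR

open Pool.Agent.Helper34.CAR Pool.Agent.Helper39.CR

theorem orderOf_exp_one : orderOf (Circle.exp 1) = 0 := by
  rw [orderOf_eq_zero_iff']
  intro n hn h
  rw [← Circle.exp_natCast_mul, mul_one, Circle.exp_eq_one] at h
  obtain ⟨m, hm⟩ := h
  have hm0 : (m : ℝ) ≠ 0 := by
    rintro h0
    rw [h0, zero_mul] at hm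
    have : (n : ℝ) ≠ 0 := by exact_mod_cast hn.ne'
    exact this hm
  apply irrational_pi
  refine ⟨(n : ℚ) / (2 * m), ?_⟩
  push_cast
  field_simp
  linarith

theorem tfixu (hT : S_TFIX) : S_TFIXU := by
  intro B _ θ s L _ ι hL γ hγ
  have h := hT B θ s L ι hL γ hγ (Circle.exp 1)
  rw [orderOf_exp_one] at h
  refine ⟨fun i a ha z _ => ?_, fun b hb => h.2 b fun z _ => hb z trivial⟩
  rw [hγ z i a]
  congr 1
  ext x y
  rw [Mt.of_apply]
  by_cases hxy : wz s 0 i x = wz s 0 i y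
  · have h1 : s.wt i x = s.wt i y := by
      have h2 : ((s.wt i x : ℕ) : ℤ) = ((s.wt i y : ℕ) : ℤ) := hxy
      exact_mod_cast h2
    have h3 : (z : ℂ) ^ s.wt i y * star ((z : ℂ) ^ s.wt i y) = 1 := by
      rw [Complex.star_def, Complex.mul_conj, Complex.normSq_eq_norm_sq, norm_pow, Circle.norm_coe]
      simp
    rw [h1, h3, one_smul]
  · rw [ha x y hxy, smul_zero]

end Pool.Agent.Helper85.CR
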