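import Pool.Agent.Helper48.CR.Goals

/-!
# Packet FB2 of MP_69be96_nt: permutation invariance of `FL` and the recursion of `FS`
-/

set_option autoImplicit false

open Finset
open Pool.Agent.Helper48.CR

namespace Pool.Agent.Helper85.CR

theorem FL_cons (x : ℝ) (L : List ℝ) (j : ℕ) :
    FL (x :: L) j = (1 - j * x) * FL L j + j * x * FL L (j - 1) := rfl

theorem FL_swap (x y : ℝ) (L : List ℝ) (j : ℕ) : FL (x :: y :: L) j = FL (y :: x :: L) j := by
  rcases j with _ | _ | j
  · simp [FL_cons]
  · simp [FL_cons]
    ring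
  · simp only [FL_cons, Nat.succ_sub_one]
    push_cast
    ring

theorem FL_perm (L L' : List ℝ) (h : L.Perm L') : ∀ j, FL L j = FL L' j := by
  induction h with
  | nil => intro j; rfl
  | cons x h ih => intro j; rw [FL_cons, FL_cons, ih, ih]
  | swap x y L => intro j; exact FL_swap y x L j
  | trans h1 h2 ih1 ih2 => intro j; rw [ih1, ih2]

theorem fb2 : FB2G := by
  refine ⟨fun L L' j h => FL_perm L L' h j, fun f j => ?_, fun f S p j hp => ?_⟩
  · simp [FS, FL]
  · unfold FS
    have h1 : (insert p S).toList.Perm (p :: S.toList) := Finset.toList_insert hp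
    have h2 := h1.map f
    rw [FL_perm _ _ h2, List.map_cons, FL_cons]

end Pool.Agent.Helper85.CR
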