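import Pool.Agent.Helper85.CR.Goals

/-!
# Project CR (MP_bdaf95_co): adjacency lemmas, decidable adjacency of layers
-/

set_option autoImplicit false

namespace Pool.Agent.Helper85.CR

theorem ext_ll {V : Type} {G : SimpleGraph V} {ρ : Fin 4 → V} {t : ℕ} {up : Fin 4 → Fin t → Bool}
    {nn : Fin t → Fin t → Bool} {u v : V} :
    (ext G ρ up nn).Adj (Sum.inl u) (Sum.inl v) ↔ G.Adj u v := by
  unfold ext
  rw [SimpleGraph.fromRel_adj]
  constructor
  · rintro ⟨-, h | h⟩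
    · exact h
    · exact SimpleGraph.Adj.symm h
  · intro h
    exact ⟨fun h' => h.ne (Sum.inl_injective h'), Or.inl h⟩

theorem ext_lr {V : Type} {G : SimpleGraph V} {ρ : Fin 4 → V} {t : ℕ} {up : Fin 4 → Fin t → Bool}
    {nn : Fin t → Fin t → Bool} {u : V} {j : Fin t} :
    (ext G ρ up nn).Adj (Sum.inl u) (Sum.inr j) ↔ ∃ i, ρ i = u ∧ up i j = true := by
  unfold ext
  rw [SimpleGraph.fromRel_adj]
  constructor
  · rintro ⟨-, h | h⟩
    · exact h
    · exact h.elim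
  · intro h
    exact ⟨by simp, Or.inl h⟩

theorem ext_rl {V : Type} {G : SimpleGraph V} {ρ : Fin 4 → V} {t : ℕ} {up : Fin 4 → Fin t → Bool}
    {nn : Fin t → Fin t → Bool} {u : V} {j : Fin t} :
    (ext G ρ up nn).Adj (Sum.inr j) (Sum.inl u) ↔ ∃ i, ρ i = u ∧ up i j = true := by
  rw [SimpleGraph.adj_comm, ext_lr]

theorem ext_rr {V : Type} {G : SimpleGraph V} {ρ : Fin 4 → V} {t : ℕ} {up : Fin 4 → Fin t → Bool}
    {nn : Fin t → Fin t → Bool} {i j : Fin t} :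
    (ext G ρ up nn).Adj (Sum.inr i) (Sum.inr j) ↔ i ≠ j ∧ (nn i j = true ∨ nn j i = true) := by
  unfold ext
  rw [SimpleGraph.fromRel_adj]
  constructor
  · rintro ⟨h1, h2⟩
    exact ⟨fun h => h1 (by rw [h]), h2⟩
  · rintro ⟨h1, h2⟩
    exact ⟨fun h => h1 (Sum.inr_injective h), h2⟩

theorem cyc4_adj {i j : Fin 4} : cyc4.Adj i j ↔ (j = i + 1 ∨ i = j + 1) := by
  unfold cyc4
  rw [SimpleGraph.fromRel_adj]
  revert i j
  decide

/-- Decidable adjacency of a layer. -/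
def ladj {t : ℕ} (up : Fin 4 → Fin t → Bool) (nn : Fin t → Fin t → Bool) :
    Fin 4 ⊕ Fin t → Fin 4 ⊕ Fin t → Bool
  | Sum.inl i, Sum.inl j => decide (j = i + 1) || decide (i = j + 1)
  | Sum.inl i, Sum.inr j => up i j
  | Sum.inr j, Sum.inl i => up i j
  | Sum.inr i, Sum.inr j => !decide (i = j) && (nn i j || nn j i)

theorem lay_adj {t : ℕ} {up : Fin 4 → Fin t → Bool} {nn : Fin t → Fin t → Bool}
    (x y : Fin 4 ⊕ Fin t) : (lay up nn).Adj x y ↔ ladj up nn x y = true := by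
  rcases x with i | i <;> rcases y with j | j
  · change (ext cyc4 id up nn).Adj _ _ ↔ _
    rw [ext_ll, cyc4_adj]
    simp [ladj]
  · change (ext cyc4 id up nn).Adj _ _ ↔ _
    rw [ext_lr]
    simp [ladj]
  · change (ext cyc4 id up nn).Adj _ _ ↔ _
    rw [ext_rl]
    simp [ladj]
  · change (ext cyc4 id up nn).Adj _ _ ↔ _
    rw [ext_rr]
    simp [ladj]

instance {t : ℕ} {up : Fin 4 → Fin t → Bool} {nn : Fin t → Fin t → Bool} :
    DecidableRel (lay up nn).Adj := fun x y => decidable_of_iff _ (lay_adj x y).symm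

instance {V : Type} [DecidableEq V] {s : ℕ} (q : Fin s → Fin 4 → V) (e : Sym2 V) :
    Decidable (Crossed q e) := by
  unfold Crossed
  infer_instance

instance : DecidableRel GB.Adj := fun i j =>
  decidable_of_iff (i ≠ j ∧ (((i : ℕ), (j : ℕ)) ∈ eB ∨ ((j : ℕ), (i : ℕ)) ∈ eB))
    (by unfold GB; rw [SimpleGraph.fromRel_adj])

instance : DecidableRel GH.Adj := fun i j =>
  decidable_of_iff (i ≠ j ∧ (((i : ℕ), (j : ℕ)) ∈
    ([(0, 1), (1, 2), (2, 3), (3, 0), (0, 4), (1, 4), (2, 4), (3, 4)] : List (ℕ × ℕ)) ∨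
    ((j : ℕ), (i : ℕ)) ∈
    ([(0, 1), (1, 2), (2, 3), (3, 0), (0, 4), (1, 4), (2, 4), (3, 4)] : List (ℕ × ℕ))))
    (by unfold GH; rw [SimpleGraph.fromRel_adj])

end Pool.Agent.Helper85.CR
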