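import Pool.Agent.Helper85.CR.Basic

/-!
# Project CR (MP_bdaf95_co): drawings and numbers of the base graphs
-/

set_option autoImplicit false
set_option maxRecDepth 20000

namespace Pool.Agent.Helper85.CR

open Equiv Helper28.VF Helper28.PL

theorem deg_eq {V : Type} [Fintype V] (G : SimpleGraph V) [DecidableRel G.Adj] (v : V) :
    deg G v = (Finset.univ.filter fun w => G.Adj v w).card := by
  unfold deg
  rw [Set.ncard_eq_toFinset_card']
  congr 1
  ext w
  simp

instance {W : Type} [DecidableEq W] (nm : ℕ → W) (E : List (ℕ × ℕ)) (x y : W) :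
    Decidable (edg nm E x y) := by
  unfold edg
  infer_instance

theorem baseDraw (hINIT : StmtINIT) (hROTL : StmtROTL) (hRUN : StmtRUN) {n s : ℕ}
    (G : SimpleGraph (Fin n)) (ρ : Fin 4 → Fin n) (q : Fin s → Fin 4 → Fin n)
    (nm : ℕ → Fin n ⊕ Fin s) (P : List (ℕ × ℕ)) (r : ℕ)
    (ok : okRun ⟨2, [(0, 1)], [0, 1]⟩ P = true)
    (hinj : ∀ i < 2 + P.length, ∀ j < 2 + P.length, nm i = nm j → i = j)
    (hsurj : ∀ x, ∃ i < 2 + P.length, nm i = x)
    (hbd : ((run ⟨2, [(0, 1)], [0, 1]⟩ P).bd.map nm).rotate r =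
      [Sum.inl (ρ 0), Sum.inl (ρ 1), Sum.inl (ρ 2), Sum.inl (ρ 3)])
    (hold : ∀ u v, G.Adj u v → ¬ Crossed q s(u, v) →
      edg nm (run ⟨2, [(0, 1)], [0, 1]⟩ P).E (Sum.inl u) (Sum.inl v))
    (hnew : ∀ x i, edg nm (run ⟨2, [(0, 1)], [0, 1]⟩ P).E (Sum.inl (q x i)) (Sum.inr x))
    (hq : QOK G q) (hρ : Function.Injective ρ) : CapDraw G ρ q := by
  refine ⟨hρ, hq, fun x y => False ∨ edg nm (run ⟨2, [(0, 1)], [0, 1]⟩ P).E x y, ?_, ?_⟩
  · have h01 : nm 0 ≠ nm 1 := by
      intro h
      have := hinj 0 (by omega) 1 (by omega) h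
      omega
    have h1 := hINIT _ (nm 0) (nm 1) h01
    have h2 : Disc (∅ ∪ nm '' {i | 0 ≤ i ∧ i < 2})
        (fun x y => False ∨ edg nm [(0, 1)] x y) ([0, 1].map nm) := by
      have e1 : (∅ ∪ nm '' {i | 0 ≤ i ∧ i < 2} : Set (Fin n ⊕ Fin s)) = {nm 0, nm 1} := by
        ext x
        simp only [Set.empty_union, Set.mem_image, Set.mem_ofPred_eq, Set.mem_insert_iff,
          Set.mem_singleton_iff]
        constructor
        · rintro ⟨i, ⟨-, hi⟩, rfl⟩
          have : i = 0 ∨ i = 1 := by omega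
          rcases this with rfl | rfl
          · exact Or.inl rfl
          · exact Or.inr rfl
        · rintro (rfl | rfl)
          · exact ⟨0, ⟨le_refl _, by omega⟩, rfl⟩
          · exact ⟨1, ⟨by omega, by omega⟩, rfl⟩
      have e2 : (fun x y => False ∨ edg nm [(0, 1)] x y) =
          edg (fun i : ℕ => if i = 0 then nm 0 else nm 1) [(0, 1)] := by
        funext x y
        simp [edg]
      rw [e1, e2]
      exact h1
    have h3 := hRUN _ nm ∅ (fun _ _ => False) 0 P ⟨2, [(0, 1)], [0, 1]⟩ ok (Nat.zero_le _)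
      (by intro x hx; simp only [List.mem_cons, List.not_mem_nil, or_false] at hx; change x < 2; omega)
      (fun i hi j hj h => hinj i hi j hj h) (fun i _ _ => by simp) h2
    have h4 := hROTL _ _ _ _ r h3
    rw [hbd] at h4
    have e3 : (∅ ∪ nm '' {i | 0 ≤ i ∧ i < (⟨2, [(0, 1)], [0, 1]⟩ : St).n + P.length} :
        Set (Fin n ⊕ Fin s)) = Set.univ := by
      ext x
      simp only [Set.empty_union, Set.mem_image, Set.mem_ofPred_eq, Set.mem_univ, iff_true]
      obtain ⟨i, hi, rfl⟩ := hsurj x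
      exact ⟨i, ⟨Nat.zero_le _, hi⟩, rfl⟩
    rw [e3] at h4
    exact h4
  · exact ⟨fun u v h1 h2 => Or.inr (hold u v h1 h2), fun x i => Or.inr (hnew x i)⟩

/-- The program of the base graph. -/
def PB : List (ℕ × ℕ) :=
  [(0, 2), (2, 2), (3, 2), (0, 2), (0, 4), (4, 3), (0, 2), (0, 2), (3, 4), (5, 4), (3, 4)]

/-- The names of the codes in the base graph. -/
def nmB (i : ℕ) : Fin 12 ⊕ Fin 1 :=
  ([Sum.inl 0, Sum.inl 3, Sum.inr 0, Sum.inl 6, Sum.inl 5, Sum.inl 2, Sum.inl 8, Sum.inl 7,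
    Sum.inl 4, Sum.inl 1, Sum.inl 10, Sum.inl 9, Sum.inl 11] : List (Fin 12 ⊕ Fin 1)).getD i
    (Sum.inl 0)

theorem gBDRW (hINIT : StmtINIT) (hROTL : StmtROTL) (hRUN : StmtRUN) : StmtBDRW := by
  refine baseDraw hINIT hROTL hRUN GB rB qB nmB PB 2 (by decide) (by decide) (by decide)
    (by decide) (by decide +kernel) (by decide +kernel) ⟨by decide, by decide, by decide⟩
    (by decide)

/-- The program of the wheel. -/
def PH : List (ℕ × ℕ) := [(0, 2), (2, 2), (2, 3)]

/-- The names of the codes in the wheel. -/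
def nmH (i : ℕ) : Fin 5 ⊕ Fin 0 :=
  ([Sum.inl 4, Sum.inl 0, Sum.inl 3, Sum.inl 2, Sum.inl 1] : List (Fin 5 ⊕ Fin 0)).getD i
    (Sum.inl 0)

theorem gHDRW (hINIT : StmtINIT) (hROTL : StmtROTL) (hRUN : StmtRUN) : StmtHDRW := by
  refine baseDraw hINIT hROTL hRUN GH rH qH nmH PH 3 (by decide) (by decide) (by decide)
    (by decide) (by decide +kernel) (by decide +kernel) ⟨by decide, by decide, by decide⟩
    (by decide)

theorem gBCNT : StmtBCNT where
  inj := by decide
  nh := by simp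
  edges := by
    rw [Set.ncard_eq_toFinset_card']
    decide +kernel
  ringdeg := by
    intro i
    rw [deg_eq]
    revert i
    decide
  degs := by
    intro v _ hv
    rw [deg_eq]
    revert v
    decide +kernel
  hdeg := by simp

theorem gHCNT : StmtHCNT where
  inj := by decide
  nh := by decide
  edges := by
    rw [Set.ncard_eq_toFinset_card']
    decide +kernel
  ringdeg := by
    intro i
    rw [deg_eq]
    revert i
    decide
  degs := by
    intro v h hv
    rw [deg_eq]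
    revert v
    decide +kernel
  hdeg := by
    intro v hv
    rw [Set.mem_singleton_iff] at hv
    subst hv
    rw [deg_eq]
    decide

end Pool.Agent.Helper85.CR
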