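import Pool.Agent.Helper85.CR.Basic

/-!
# Project CR (MP_bdaf95_co): the colourings of the layers and of the base graphs
-/

set_option autoImplicit false
set_option synthInstance.maxSize 4000
set_option synthInstance.maxHeartbeats 4000000
set_option maxRecDepth 20000

namespace Pool.Agent.Helper85.CR

instance {V : Type} [Fintype V] (G : SimpleGraph V) [DecidableRel G.Adj] (c : V → Fin 4) :
    Decidable (Proper G c) := by
  unfold Proper
  infer_instance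

instance {V : Type} [Fintype V] [DecidableEq V] (G : SimpleGraph V) [DecidableRel G.Adj] (x y : V)
    (c : V → Fin 4) : Decidable (PropEx G x y c) := by
  unfold PropEx
  infer_instance

instance (f : Fin 4 → Fin 4) : Decidable (Pat1 f) := by
  unfold Pat1
  infer_instance

instance (f : Fin 4 → Fin 4) : Decidable (Pat2 f) := by
  unfold Pat2
  infer_instance

instance (i : Fin 4) (f : Fin 4 → Fin 4) : Decidable (PatE i f) := by
  unfold PatE
  infer_instance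

/-- The colour of the vertex number `i` in the colouring with code `N`. -/
def dg (N i : ℕ) : Fin 4 := ⟨N / 4 ^ i % 4, Nat.mod_lt _ (by norm_num)⟩

/-- The colouring of a layer with code `N`. -/
def dgL (t : ℕ) (N : ℕ) : Fin 4 ⊕ Fin t → Fin 4
  | Sum.inl i => dg N i
  | Sum.inr j => dg N (4 + j)

/-- The number of a vertex of a layer. -/
def num {t : ℕ} : Fin 4 ⊕ Fin t → ℕ
  | Sum.inl i => i
  | Sum.inr j => 4 + j

/-- Table lookup. -/
def look : List (ℕ × ℕ × ℕ) → ℕ → ℕ → ℕ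
  | [], _, _ => 0
  | p :: L, x, y => if (p.1 = x ∧ p.2.1 = y) ∨ (p.1 = y ∧ p.2.1 = x) then p.2.2 else look L x y

/-- All colourings of the layer with a rainbow inner ring. -/
theorem keyA :
  ∀ x4 : Fin 4, 
  ∀ x5 : Fin 4, x5 ≠ x4 →
  ∀ x6 : Fin 4, x6 ≠ x4 → x6 ≠ x5 →
  ∀ x7 : Fin 4, x7 ≠ x4 → x7 ≠ x5 → x7 ≠ x6 →
  ∀ x0 : Fin 4, x0 ≠ x4 → x0 ≠ x5 →
  ∀ x1 : Fin 4, x1 ≠ x5 → x1 ≠ x6 → x1 ≠ x0 →
  ∀ x2 : Fin 4, x2 ≠ x6 → x2 ≠ x7 → x2 ≠ x1 →
  ∀ x3 : Fin 4, x3 ≠ x4 → x3 ≠ x7 → x3 ≠ x0 → x3 ≠ x2 → (x0 ≠ x1 ∧ x0 ≠ x2 ∧ x0 ≠ x3 ∧ x1 ≠ x2 ∧ x1 ≠ x3 ∧ x2 ≠ x3) := by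
  decide +kernel

/-- The colourings for the edges. -/
def tabA : List (ℕ × ℕ × ℕ) := [
  (0, 4, 58444), (0, 5, 58513), (1, 5, 58438), (1, 6, 58507), (2, 6, 58466), (2, 7, 58483),
  (3, 4, 58386), (3, 7, 58574)]

theorem gACOL : StmtACOL where
  inj := by decide
  ring := by decide
  l1 := by
    intro c hc hi
    have hne : ∀ i j : Fin 4, i ≠ j → c (Sum.inr i) ≠ c (Sum.inr j) :=
      fun i j hij h => hij (hi h)
    have h := keyA
      (c (Sum.inr 0)) (c (Sum.inr 1)) (hne 1 0 (by decide)) (c (Sum.inr 2))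
      (hne 2 0 (by decide)) (hne 2 1 (by decide)) (c (Sum.inr 3)) (hne 3 0 (by decide))
      (hne 3 1 (by decide)) (hne 3 2 (by decide)) (c (Sum.inl 0)) (hc _ _ (by decide))
      (hc _ _ (by decide)) (c (Sum.inl 1)) (hc _ _ (by decide)) (hc _ _ (by decide))
      (hc _ _ (by decide)) (c (Sum.inl 2)) (hc _ _ (by decide)) (hc _ _ (by decide))
      (hc _ _ (by decide)) (c (Sum.inl 3)) (hc _ _ (by decide)) (hc _ _ (by decide))
      (hc _ _ (by decide)) (hc _ _ (by decide))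
    obtain ⟨h1, h2, h3, h4, h5, h6⟩ := h
    intro i j hij
    have hij' : c (Sum.inl i) = c (Sum.inl j) := hij
    fin_cases i <;> fin_cases j <;> first | rfl | exact absurd hij' (by assumption) |
      exact absurd hij'.symm (by assumption)
  l2 := ⟨dgL 4 58446, by decide +kernel⟩
  l3a := ⟨dgL 4 33915, by decide +kernel⟩
  l3b := ⟨dgL 4 25779, by decide +kernel⟩
  l4 := by
    have h : ∀ x y, (lay upA nnA).Adj x y → (∀ i, s(x, y) ≠ s(Sum.inl i, Sum.inl (i + 1))) →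
        (∀ i, s(x, y) ≠ s(Sum.inr ((fun i => i) i), Sum.inr ((fun i => i) (i + 1)))) →
        PropEx (lay upA nnA) x y (dgL 4 (look tabA (num x) (num y))) ∧
        Function.Injective (fun i => dgL 4 (look tabA (num x) (num y)) (Sum.inr ((fun i => i) i))) ∧
        (Pat1 (fun i => dgL 4 (look tabA (num x) (num y)) (Sum.inl i)) ∨
          Pat2 (fun i => dgL 4 (look tabA (num x) (num y)) (Sum.inl i))) := by
      decide +kernel
    intro x y h1 h2 h3
    exact ⟨_, h x y h1 h2 h3⟩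
  l5 := by
    have h : ∀ i : Fin 4, PropEx (lay upA nnA) (Sum.inr ((fun i => i) i)) (Sum.inr ((fun i => i) (i + 1)))
        (dgL 4 (![36987, 16951, 2487, 9331] i)) ∧ PatE i (fun j => dgL 4 (![36987, 16951, 2487, 9331] i) (Sum.inr ((fun i => i) j))) ∧
        (Pat1 (fun j => dgL 4 (![36987, 16951, 2487, 9331] i) (Sum.inl j)) ∨ Pat2 (fun j => dgL 4 (![36987, 16951, 2487, 9331] i) (Sum.inl j))) := by
      decide +kernel
    exact fun i => ⟨_, h i⟩
  l6 := by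
    have h : ∀ i : Fin 4, PropEx (lay upA nnA) (Sum.inl i) (Sum.inl (i + 1)) (dgL 4 (![58447, 58434, 58450, 58514] i)) ∧
        Function.Injective (fun j => dgL 4 (![58447, 58434, 58450, 58514] i) (Sum.inr ((fun i => i) j))) ∧
        PatE i (fun j => dgL 4 (![58447, 58434, 58450, 58514] i) (Sum.inl j)) := by
      decide +kernel
    exact fun i => ⟨_, h i⟩

/-- All colourings of the layer with a rainbow inner ring. -/
theorem keyX :
  ∀ x12 : Fin 4, 
  ∀ x7 : Fin 4, x7 ≠ x12 →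
  ∀ x4 : Fin 4, x4 ≠ x12 → x4 ≠ x7 →
  ∀ x5 : Fin 4, x5 ≠ x12 → x5 ≠ x7 → x5 ≠ x4 →
  ∀ x0 : Fin 4, x0 ≠ x7 → x0 ≠ x4 →
  ∀ x1 : Fin 4, x1 ≠ x4 → x1 ≠ x5 → x1 ≠ x0 →
  ∀ x3 : Fin 4, x3 ≠ x12 → x3 ≠ x7 → x3 ≠ x0 →
  ∀ x8 : Fin 4, x8 ≠ x12 → x8 ≠ x5 → x8 ≠ x1 →
  ∀ x11 : Fin 4, x11 ≠ x12 → x11 ≠ x7 → x11 ≠ x3 →
  ∀ x9 : Fin 4, x9 ≠ x12 → x9 ≠ x8 → x9 ≠ x11 →
  ∀ x6 : Fin 4, x6 ≠ x1 → x6 ≠ x8 → x6 ≠ x9 →
  ∀ x10 : Fin 4, x10 ≠ x3 → x10 ≠ x11 → x10 ≠ x9 → x10 ≠ x6 →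
  ∀ x2 : Fin 4, x2 ≠ x1 → x2 ≠ x3 → x2 ≠ x6 → x2 ≠ x10 → (x0 ≠ x1 ∧ x0 ≠ x2 ∧ x0 ≠ x3 ∧ x1 ≠ x2 ∧ x1 ≠ x3 ∧ x2 ≠ x3) := by
  decide +kernel

/-- The colourings for the edges. -/
def tabX : List (ℕ × ℕ × ℕ) := [
  (0, 4, 9330402), (0, 7, 13205137), (1, 4, 13205144), (1, 5, 9268956), (1, 6, 14241459),
  (1, 8, 14253700), (2, 6, 10374852), (2, 10, 13008516), (3, 7, 9330291), (3, 10, 15105668),
  (3, 11, 15105732), (3, 12, 15093303), (5, 8, 13328051), (6, 8, 10383044), (6, 9, 10387140),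
  (6, 10, 12996279), (7, 11, 5136051), (8, 9, 14319236), (8, 12, 14188164), (9, 10, 14057092),
  (9, 11, 13524659), (9, 12, 13794948), (10, 11, 10911428), (11, 12, 2522820)]

theorem gXCOL : StmtXCOL where
  inj := by decide
  ring := by decide
  l1 := by
    intro c hc hi
    have hne : ∀ i j : Fin 4, i ≠ j → c (Sum.inr (iX i)) ≠ c (Sum.inr (iX j)) :=
      fun i j hij h => hij (hi h)
    have h := keyX
      (c (Sum.inr 8)) (c (Sum.inr 3)) (hne 1 0 (by decide)) (c (Sum.inr 0))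
      (hne 2 0 (by decide)) (hne 2 1 (by decide)) (c (Sum.inr 1)) (hne 3 0 (by decide))
      (hne 3 1 (by decide)) (hne 3 2 (by decide)) (c (Sum.inl 0)) (hc _ _ (by decide))
      (hc _ _ (by decide)) (c (Sum.inl 1)) (hc _ _ (by decide)) (hc _ _ (by decide))
      (hc _ _ (by decide)) (c (Sum.inl 3)) (hc _ _ (by decide)) (hc _ _ (by decide))
      (hc _ _ (by decide)) (c (Sum.inr 4)) (hc _ _ (by decide)) (hc _ _ (by decide))
      (hc _ _ (by decide)) (c (Sum.inr 7)) (hc _ _ (by decide)) (hc _ _ (by decide))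
      (hc _ _ (by decide)) (c (Sum.inr 5)) (hc _ _ (by decide)) (hc _ _ (by decide))
      (hc _ _ (by decide)) (c (Sum.inr 2)) (hc _ _ (by decide)) (hc _ _ (by decide))
      (hc _ _ (by decide)) (c (Sum.inr 6)) (hc _ _ (by decide)) (hc _ _ (by decide))
      (hc _ _ (by decide)) (hc _ _ (by decide)) (c (Sum.inl 2)) (hc _ _ (by decide))
      (hc _ _ (by decide)) (hc _ _ (by decide)) (hc _ _ (by decide))
    obtain ⟨h1, h2, h3, h4, h5, h6⟩ := h
    intro i j hij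
    have hij' : c (Sum.inl i) = c (Sum.inl j) := hij
    fin_cases i <;> fin_cases j <;> first | rfl | exact absurd hij' (by assumption) |
      exact absurd hij'.symm (by assumption)
  l2 := ⟨dgL 9 10374884, by decide +kernel⟩
  l3a := ⟨dgL 9 14370999, by decide +kernel⟩
  l3b := ⟨dgL 9 13326003, by decide +kernel⟩
  l4 := by
    have h : ∀ x y, (lay upX nnX).Adj x y → (∀ i, s(x, y) ≠ s(Sum.inl i, Sum.inl (i + 1))) →
        (∀ i, s(x, y) ≠ s(Sum.inr (iX i), Sum.inr (iX (i + 1)))) →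
        PropEx (lay upX nnX) x y (dgL 9 (look tabX (num x) (num y))) ∧
        Function.Injective (fun i => dgL 9 (look tabX (num x) (num y)) (Sum.inr (iX i))) ∧
        (Pat1 (fun i => dgL 9 (look tabX (num x) (num y)) (Sum.inl i)) ∨
          Pat2 (fun i => dgL 9 (look tabX (num x) (num y)) (Sum.inl i))) := by
      decide +kernel
    intro x y h1 h2 h3
    exact ⟨_, h x y h1 h2 h3⟩
  l5 := by
    have h : ∀ i : Fin 4, PropEx (lay upX nnX) (Sum.inr (iX i)) (Sum.inr (iX (i + 1)))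
        (dgL 9 (![13310306, 48694395, 31162423, 14369463] i)) ∧ PatE i (fun j => dgL 9 (![13310306, 48694395, 31162423, 14369463] i) (Sum.inr (iX j))) ∧
        (Pat1 (fun j => dgL 9 (![13310306, 48694395, 31162423, 14369463] i) (Sum.inl j)) ∨ Pat2 (fun j => dgL 9 (![13310306, 48694395, 31162423, 14369463] i) (Sum.inl j))) := by
      decide +kernel
    exact fun i => ⟨_, h i⟩
  l6 := by
    have h : ∀ i : Fin 4, PropEx (lay upX nnX) (Sum.inl i) (Sum.inl (i + 1)) (dgL 9 (![13205136, 14253699, 13008548, 9268947] i)) ∧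
        Function.Injective (fun j => dgL 9 (![13205136, 14253699, 13008548, 9268947] i) (Sum.inr (iX j))) ∧
        PatE i (fun j => dgL 9 (![13205136, 14253699, 13008548, 9268947] i) (Sum.inl j)) := by
      decide +kernel
    exact fun i => ⟨_, h i⟩

/-- There is no colouring of the base graph with a rainbow ring. -/
theorem keyB :
  ∀ x3 : Fin 4, 
  ∀ x0 : Fin 4, x0 ≠ x3 →
  ∀ x11 : Fin 4, x11 ≠ x3 → x11 ≠ x0 →
  ∀ x1 : Fin 4, x1 ≠ x3 → x1 ≠ x0 → x1 ≠ x11 →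
  ∀ x4 : Fin 4, x4 ≠ x3 → x4 ≠ x1 →
  ∀ x9 : Fin 4, x9 ≠ x11 → x9 ≠ x1 → x9 ≠ x4 →
  ∀ x5 : Fin 4, x5 ≠ x0 → x5 ≠ x11 → x5 ≠ x9 →
  ∀ x6 : Fin 4, x6 ≠ x3 → x6 ≠ x0 → x6 ≠ x5 →
  ∀ x8 : Fin 4, x8 ≠ x3 → x8 ≠ x0 → x8 ≠ x6 →
  ∀ x2 : Fin 4, x2 ≠ x5 → x2 ≠ x6 → x2 ≠ x8 →
  ∀ x7 : Fin 4, x7 ≠ x3 → x7 ≠ x4 → x7 ≠ x8 → x7 ≠ x2 →
  ∀ x10 : Fin 4, x10 ≠ x4 → x10 ≠ x9 → x10 ≠ x5 → x10 ≠ x2 → x10 ≠ x7 → False := by
  decide +kernel

/-- The colourings for the edges. -/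
def tabB : List (ℕ × ℕ × ℕ) := [
  (0, 5, 11773197), (0, 6, 10673421), (0, 8, 10611981), (1, 4, 10710797), (1, 9, 11464989),
  (2, 5, 12018189), (2, 6, 12018221), (2, 7, 12018205), (2, 8, 11956781), (2, 10, 8875533),
  (3, 4, 12034077), (3, 6, 10669341), (3, 7, 10693917), (3, 8, 10546461), (4, 7, 10710285),
  (4, 9, 12034333), (4, 10, 9678093), (5, 6, 10681613), (5, 9, 11772189), (5, 10, 11775245),
  (5, 11, 11696653), (6, 8, 10677517), (7, 8, 10743053), (7, 10, 10726669), (9, 10, 8629533),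
  (9, 11, 12296477)]

theorem gBCOL : StmtBCOL where
  inj := by decide
  ring := by decide
  noR := by
    intro c hc hi
    have hne : ∀ i j : Fin 4, i ≠ j → c (rB i) ≠ c (rB j) := fun i j hij h => hij (hi h)
    exact keyB
      (c 3) (c 0) (hne 1 0 (by decide)) (c 11)
      (hne 2 0 (by decide)) (hne 2 1 (by decide)) (c 1) (hne 3 0 (by decide))
      (hne 3 1 (by decide)) (hne 3 2 (by decide)) (c 4) (hc _ _ (by decide))
      (hc _ _ (by decide)) (c 9) (hc _ _ (by decide)) (hc _ _ (by decide))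
      (hc _ _ (by decide)) (c 5) (hc _ _ (by decide)) (hc _ _ (by decide))
      (hc _ _ (by decide)) (c 6) (hc _ _ (by decide)) (hc _ _ (by decide))
      (hc _ _ (by decide)) (c 8) (hc _ _ (by decide)) (hc _ _ (by decide))
      (hc _ _ (by decide)) (c 2) (hc _ _ (by decide)) (hc _ _ (by decide))
      (hc _ _ (by decide)) (c 7) (hc _ _ (by decide)) (hc _ _ (by decide))
      (hc _ _ (by decide)) (hc _ _ (by decide)) (c 10) (hc _ _ (by decide))
      (hc _ _ (by decide)) (hc _ _ (by decide)) (hc _ _ (by decide)) (hc _ _ (by decide))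
  pat1 := ⟨fun v : Fin 12 => dg 981273 v, by decide +kernel⟩
  pat2 := ⟨fun v : Fin 12 => dg 10710789 v, by decide +kernel⟩
  crit := by
    have h : ∀ x y, GB.Adj x y → (∀ i, s(x, y) ≠ s(rB i, rB (i + 1))) →
        PropEx GB x y (fun v : Fin 12 => dg (look tabB x y) v) ∧
        Function.Injective ((fun v : Fin 12 => dg (look tabB x y) v) ∘ rB) := by
      decide +kernel
    intro x y h1 h2
    exact ⟨_, h x y h1 h2⟩
  critR := by
    have h : ∀ i : Fin 4, PropEx GB (rB i) (rB (i + 1)) (fun v : Fin 12 => dg (![7575816, 3011716, 849506, 11464977] i) v) ∧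
        PatE i ((fun v : Fin 12 => dg (![7575816, 3011716, 849506, 11464977] i) v) ∘ rB) := by
      decide +kernel
    exact fun i => ⟨_, h i⟩

/-- There is no colouring of the base graph with a rainbow ring. -/
theorem keyH :
  ∀ x0 : Fin 4, 
  ∀ x1 : Fin 4, x1 ≠ x0 →
  ∀ x2 : Fin 4, x2 ≠ x0 → x2 ≠ x1 →
  ∀ x3 : Fin 4, x3 ≠ x0 → x3 ≠ x1 → x3 ≠ x2 →
  ∀ x4 : Fin 4, x4 ≠ x0 → x4 ≠ x1 → x4 ≠ x2 → x4 ≠ x3 → False := by
  decide +kernel

/-- The colourings for the edges. -/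
def tabH : List (ℕ × ℕ × ℕ) := [
  (0, 4, 228), (1, 4, 484), (2, 4, 740), (3, 4, 996)]

theorem gHCOL : StmtHCOL where
  inj := by decide
  ring := by decide
  noR := by
    intro c hc hi
    have hne : ∀ i j : Fin 4, i ≠ j → c (rH i) ≠ c (rH j) := fun i j hij h => hij (hi h)
    exact keyH
      (c 0) (c 1) (hne 1 0 (by decide)) (c 2)
      (hne 2 0 (by decide)) (hne 2 1 (by decide)) (c 3) (hne 3 0 (by decide))
      (hne 3 1 (by decide)) (hne 3 2 (by decide)) (c 4) (hc _ _ (by decide))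
      (hc _ _ (by decide)) (hc _ _ (by decide)) (hc _ _ (by decide))
  pat1 := ⟨fun v : Fin 5 => dg 900 v, by decide +kernel⟩
  pat2 := ⟨fun v : Fin 5 => dg 868 v, by decide +kernel⟩
  crit := by
    have h : ∀ x y, GH.Adj x y → (∀ i, s(x, y) ≠ s(rH i, rH (i + 1))) →
        PropEx GH x y (fun v : Fin 5 => dg (look tabH x y) v) ∧
        Function.Injective ((fun v : Fin 5 => dg (look tabH x y) v) ∘ rH) := by
      decide +kernel
    intro x y h1 h2
    exact ⟨_, h x y h1 h2⟩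
  critR := by
    have h : ∀ i : Fin 4, PropEx GH (rH i) (rH (i + 1)) (fun v : Fin 5 => dg (![912, 834, 777, 804] i) v) ∧
        PatE i ((fun v : Fin 5 => dg (![912, 834, 777, 804] i) v) ∘ rH) := by
      decide +kernel
    exact fun i => ⟨_, h i⟩

end Pool.Agent.Helper85.CR
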