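import Pool.Agent.Helper85.CR.Basic

/-!
# Project CR (MP_bdaf95_co): the drawings and the numbers of the layers
-/

set_option autoImplicit false

namespace Pool.Agent.Helper85.CR

theorem gADRW : StmtADRW where
  inj := fun i j h => h
  cvinj := fun i j h => Fin.ext (by simpa using h)
  cxinj := fun i => i.elim0
  cvcx := fun j y => y.elim0
  cvlt := by decide
  cxlt := fun y => y.elim0
  len := rfl
  ok := by decide
  bd := ⟨1, by decide⟩
  eup := by decide
  enn := by decide
  ex := fun y => y.elim0
  qinj := fun y => y.elim0
  qadj := fun y => y.elim0
  qdist := fun y => y.elim0
  qnew := by decide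

theorem gXDRW : StmtXDRW where
  inj := by decide
  cvinj := by decide
  cxinj := by decide
  cvcx := by decide
  cvlt := by decide
  cxlt := by decide
  len := rfl
  ok := by decide
  bd := ⟨0, by decide⟩
  eup := by decide
  enn := by decide
  ex := by decide
  qinj := by decide
  qadj := by decide
  qdist := by decide
  qnew := by decide

theorem gACNT : StmtACNT where
  inj := fun i j h => h
  symm := by decide
  irr := by decide
  edges := by decide
  updeg := by decide
  ringdeg := by decide
  degs := by decide

theorem gXCNT : StmtXCNT where
  inj := by decide
  symm := by decide
  irr := by decide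
  edges := by decide
  updeg := by decide
  ringdeg := by decide
  degs := by decide

end Pool.Agent.Helper85.CR
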