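import Pool.Agent.Helper85.CR.Main
import Pool.Agent.Helper12.CR.TOP
import Pool.Agent.Helper13.CR.FDR
import Pool.Agent.Helper14.CR.FDIS
import Pool.Agent.Helper18.CR.PCNT
import Pool.Agent.Helper24.CR.PISO
import Pool.Agent.Helper28.CR.EAR
import Pool.Agent.Helper32.CR.SCOL
import Pool.Agent.Helper39.CR.EDG
import Pool.Agent.Helper47.CR.TRI4
import Pool.Agent.Helper49.CR.GROW
import Pool.Agent.Helper50.CR.SDR
import Pool.Agent.Helper50.CR.SDIS
import Pool.Agent.Helper54.CR.SCNT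
import Pool.Agent.Helper62.CR.PEND
import Pool.Agent.Helper69.CR.DEXT
import Pool.Agent.Helper74.CR.RUN
import Pool.Agent.Helper79.CR.ONEP
import Pool.Agent.Helper89.CR.FCNT
import Pool.Agent.Helper98.CR.FCOL

/-!
# Project CR (MP_bdaf95_co): the two theorems
-/

set_option autoImplicit false

namespace Pool.Agent.Helper85.CR

theorem aGROW : StmtGROW :=
  Helper49.CR.gGROW gROTL Helper62.CR.gPEND Helper28.CR.gEAR

theorem aRUN : StmtRUN := Helper74.CR.gRUN gROTL aGROW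

theorem aLOW : StmtLOW := gLOW Helper39.CR.gEDG Helper18.CR.gPCNT

theorem aFDR : StmtFDR :=
  Helper13.CR.gFDR gTRA aGROW Helper12.CR.gTOP (Helper79.CR.gONEP Helper24.CR.gPISO)

theorem aSDR : StmtSDR := Helper50.CR.gSDR gTRA gROTL aRUN

theorem aSCOL : StmtSCOL := Helper32.CR.gSCOL gPERM

theorem aSCNT : StmtSCNT := Helper54.CR.gSCNT Helper69.CR.gDEXT

theorem finalA : StmtMAINA :=
  mainA aSCOL aSCNT aSDR Helper98.CR.gFCOL Helper89.CR.gFCNT aFDR aLOW (gBDRW gINIT gROTL aRUN)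

theorem finalB : StmtMAINB :=
  mainB aSCOL aSCNT aSDR Helper50.CR.gSDIS Helper98.CR.gFCOL Helper89.CR.gFCNT aFDR
    (Helper14.CR.gFDIS Helper18.CR.gPCNT Helper47.CR.gTRI4) aLOW (gHDRW gINIT gROTL aRUN)

end Pool.Agent.Helper85.CR
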