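import Pool.Agent.Helper85.CR.Small
import Pool.Agent.Helper85.CR.DataDraw
import Pool.Agent.Helper85.CR.DataCol
import Pool.Agent.Helper85.CR.DataBase

/-!
# Project CR (MP_bdaf95_co): assembly
-/

set_option autoImplicit false

namespace Pool.Agent.Helper85.CR

theorem gHDIS : StmtHDIS where
  conn := by
    have h : ∀ v : Fin 5, v ≠ 4 → GH.Adj v 4 := by decide
    have hr : ∀ v : Fin 5, GH.Reachable v 4 := by
      intro v
      by_cases hv : v = 4
      · rw [hv]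
      · exact (h v hv).reachable
    haveI : Nonempty (Fin 5) := ⟨4⟩
    exact SimpleGraph.Connected.mk fun u v => (hr u).trans (hr v).symm
  lev := ⟨fun v => if v = 4 then 0 else 1, by decide, by decide, by decide⟩
  k4 := by decide +kernel

theorem nodiag {V : Type} {G : SimpleGraph V} {ρ : Fin 4 → V} (h : CapCol G ρ) :
    ¬ G.Adj (ρ 0) (ρ 2) ∧ ¬ G.Adj (ρ 1) (ρ 3) := by
  obtain ⟨c, hc, h1⟩ := h.pat1
  obtain ⟨c', hc', h2⟩ := h.pat2
  exact ⟨fun h3 => hc _ _ h3 h1.1, fun h3 => hc' _ _ h3 h2.1⟩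

/-- all the data of a graph with a ring -/
def Good (x m n : ℕ) : Prop := ∃ (V X : Type) (_ : Fintype V) (_ : Fintype X)
  (G : SimpleGraph V) (ρ : Fin 4 → V) (q : X → Fin 4 → V), Fintype.card X = x ∧
  n ≤ Fintype.card V ∧ CapCol G ρ ∧ CapCnt G ρ x m ∅ ∧ CapDraw G ρ q

/-- all the data of a graph with a ring and a special vertex -/
def GoodH (m l : ℕ) : Prop := ∃ (V X : Type) (_ : Fintype V) (_ : Fintype X)
  (G : SimpleGraph V) (ρ : Fin 4 → V) (q : X → Fin 4 → V) (h : V), Fintype.card X = 0 ∧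
  CapCol G ρ ∧ CapCnt G ρ 0 m {h} ∧ CapDraw G ρ q ∧ CapDist G ρ h l

section
variable (hSCOL : StmtSCOL) (hSCNT : StmtSCNT) (hSDR : StmtSDR) (hSDIS : StmtSDIS)
  (hFCOL : StmtFCOL) (hFCNT : StmtFCNT) (hFDR : StmtFDR) (hFDIS : StmtFDIS) (hLOW : StmtLOW)
  (hBDRW : StmtBDRW) (hHDRW : StmtHDRW)

include hSCOL hSCNT hSDR in
theorem good_layer {x n t s : ℕ} {up : Fin 4 → Fin t → Bool} {nn : Fin t → Fin t → Bool}
    {ι : Fin 4 → Fin t} {lq : Fin s → Fin 4 → Fin 4 ⊕ Fin t} {P : List (ℕ × ℕ)} {cv : Fin t → ℕ}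
    {cx : Fin s → ℕ} (h1 : LayCol up nn ι) (h2 : LayCnt up nn ι s) (h3 : LayDraw up nn ι lq P cv cx)
    (h : Good x 4 n) : Good (x + s) 4 (n + t) := by
  obtain ⟨V, X, i1, i2, G, ρ, q, hX, hV, hcol, hcnt, hdraw⟩ := h
  refine ⟨V ⊕ Fin t, X ⊕ Fin s, inferInstance, inferInstance, ext G ρ up nn,
    fun i => Sum.inr (ι i), extq ρ q lq, ?_, ?_, hSCOL V G ρ t up nn ι hcol h1, ?_,
    hSDR V X G ρ q t s up nn ι lq P cv cx hcol.ring hdraw h3⟩
  · rw [Fintype.card_sum, hX, Fintype.card_fin]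
  · rw [Fintype.card_sum, Fintype.card_fin]
    omega
  · have := hSCNT V G ρ t up nn ι x s 4 ∅ (by omega) hcnt h2
    rwa [Set.image_empty] at this

include hSCOL hSCNT hSDR hBDRW in
theorem good_all (x n : ℕ) : Good (x + 1) 4 n := by
  induction n with
  | zero =>
    induction x with
    | zero =>
      exact ⟨Fin 12, Fin 1, inferInstance, inferInstance, GB, rB, qB, rfl, Nat.zero_le _, gBCOL,
        gBCNT, hBDRW⟩
    | succ x ih =>
      have := good_layer hSCOL hSCNT hSDR gXCOL gXCNT gXDRW ih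
      obtain ⟨V, X, i1, i2, G, ρ, q, hX, hV, h⟩ := this
      exact ⟨V, X, i1, i2, G, ρ, q, hX, Nat.zero_le _, h⟩
  | succ n ih =>
    have := good_layer hSCOL hSCNT hSDR gACOL gACNT gADRW ih
    obtain ⟨V, X, i1, i2, G, ρ, q, hX, hV, h⟩ := this
    exact ⟨V, X, i1, i2, G, ρ, q, hX, by omega, h⟩

theorem has_nb {V : Type} [Fintype V] {G : SimpleGraph V} {v : V} (h : 0 < deg G v) :
    ∃ w, G.Adj v w := by
  unfold deg at h
  obtain ⟨w, hw⟩ := (Set.ncard_pos (Set.toFinite _)).1 h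
  exact ⟨w, hw⟩

include hSCOL hSCNT hSDR hFCOL hFCNT hFDR hLOW hBDRW in
theorem mainA : StmtMAINA := by
  intro k N hk
  obtain ⟨x, rfl⟩ : ∃ x, k = x + 1 + 1 := ⟨k - 2, by omega⟩
  obtain ⟨V, X, i1, i2, G, ρ, q, hX, hV, hcol, hcnt, hdraw⟩ :=
    good_all hSCOL hSCNT hSDR hBDRW x (max N 3)
  obtain ⟨d1, d2⟩ := nodiag hcol
  obtain ⟨e1, e2, -⟩ := hFCNT V G ρ (x + 1) ∅ hcnt d1 d2
  have h3 : 3 ≤ Fintype.card V := (le_max_right _ _).trans hV
  refine ⟨V, i1, close G ρ, (le_max_left _ _).trans hV, hFCOL V G ρ hcol ?_, ⟨?_, ?_⟩, ?_⟩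
  · intro v
    apply has_nb
    by_cases hv : ∃ i, v = ρ i
    · obtain ⟨i, rfl⟩ := hv
      have := hcnt.ringdeg i
      omega
    · have := hcnt.degs v (by simp) (fun i hi => hv ⟨i, hi⟩)
      omega
  · have := hFDR V X G ρ q hdraw d1 d2
    rwa [hX] at this
  · intro j hj hD
    have := hLOW j V (close G ρ) hD h3
    omega
  · intro v
    exact e2 v (by simp)

include hSCOL hSCNT hSDR hSDIS hHDRW in
theorem goodH_all (l : ℕ) : GoodH 4 (l + 2) := by
  have step : ∀ m l, 3 ≤ m → GoodH m l → GoodH 4 (l + 1) := by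
    rintro m l hm ⟨V, X, i1, i2, G, ρ, q, h, hX, hcol, hcnt, hdraw, hdist⟩
    obtain ⟨d1, d2⟩ := nodiag hcol
    refine ⟨V ⊕ Fin 4, X ⊕ Fin 0, inferInstance, inferInstance, ext G ρ upA nnA,
      fun i => Sum.inr i, extq ρ q qA, Sum.inl h, ?_, hSCOL V G ρ 4 upA nnA _ hcol gACOL, ?_,
      hSDR V X G ρ q 4 0 upA nnA _ qA PA _ _ hcol.ring hdraw gADRW,
      hSDIS V G ρ h l hcol.inj d1 d2 hdist⟩
    · rw [Fintype.card_sum, hX, Fintype.card_fin]
    · have := hSCNT V G ρ 4 upA nnA _ 0 0 m {h} hm hcnt gACNT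
      rwa [Set.image_singleton] at this
  induction l with
  | zero =>
    exact step 3 1 (le_refl _) ⟨Fin 5, Fin 0, inferInstance, inferInstance, GH, rH, qH, 4, rfl,
      gHCOL, gHCNT, hHDRW, gHDIS⟩
  | succ l ih => exact step 4 (l + 2) (by omega) ih

include hSCOL hSCNT hSDR hSDIS hFCOL hFCNT hFDR hFDIS hLOW hHDRW in
theorem mainB : StmtMAINB := by
  intro m
  obtain ⟨V, X, i1, i2, G, ρ, q, h, hX, hcol, hcnt, hdraw, hdist⟩ :=
    goodH_all hSCOL hSCNT hSDR hSDIS hHDRW m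
  obtain ⟨d1, d2⟩ := nodiag hcol
  obtain ⟨e1, e2, e3⟩ := hFCNT V G ρ 0 {h} hcnt d1 d2
  have h4 : 4 ≤ Fintype.card V := by
    have := Fintype.card_le_of_injective ρ hcol.inj
    rwa [Fintype.card_fin] at this
  have hDr : Drawn 1 V (close G ρ) := by
    have := hFDR V X G ρ q hdraw d1 d2
    rwa [hX] at this
  have hle := hLOW 1 V (close G ρ) hDr (by omega)
  obtain ⟨hconn, hfar⟩ := hFDIS V G ρ h (m + 2) hdist (by omega) (by omega)
  refine ⟨V, i1, close G ρ, h, hFCOL V G ρ hcol ?_, ⟨hDr, ?_⟩, hconn,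
    e3 h (Set.mem_singleton h), fun v hv => e2 v hv, ?_⟩
  · intro v
    apply has_nb
    by_cases hv : ∃ i, v = ρ i
    · obtain ⟨i, rfl⟩ := hv
      have := hcnt.ringdeg i
      omega
    · by_cases hh : v = h
      · rw [hh, hcnt.hdeg h (Set.mem_singleton h)]
        omega
      · have := hcnt.degs v hh (fun i hi => hv ⟨i, hi⟩)
        omega
  · intro j hj hD
    have := hLOW j V (close G ρ) hD (by omega)
    omega
  · intro a b c d n1 n2 n3 n4 a1 a2 hp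
    obtain ⟨f1, f2, f3, f4⟩ := hfar a b c d n1 n2 n3 n4 a1 a2 hp
    exact ⟨by omega, by omega, by omega, by omega⟩

end

end Pool.Agent.Helper85.CR
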