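import Pool.Agent.Helper85.CR.Basic

/-!
# Project CR (MP_bdaf95_co): INIT, ROTL, TRA, LOW, PERM
-/

set_option autoImplicit false

namespace Pool.Agent.Helper85.CR

open Equiv Helper28.VF Helper28.PL

theorem gPERM : StmtPERM := by
  classical
  intro f g h
  let F : {x // ∃ i, g i = x} → {x // ∃ i, f i = x} := fun x => ⟨f x.2.choose, _, rfl⟩
  have hF : ∀ i, F ⟨g i, i, rfl⟩ = ⟨f i, i, rfl⟩ := by
    intro i
    apply Subtype.ext
    have h1 : g (Exists.choose (⟨i, rfl⟩ : ∃ j, g j = g i)) = g i :=
      (⟨i, rfl⟩ : ∃ j, g j = g i).choose_spec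
    exact (h _ _).2 h1
  have hbij : Function.Bijective F := by
    constructor
    · rintro ⟨x, i, rfl⟩ ⟨y, j, rfl⟩ hxy
      rw [hF, hF] at hxy
      apply Subtype.ext
      exact (h i j).1 (congrArg Subtype.val hxy)
    · rintro ⟨x, i, rfl⟩
      exact ⟨⟨g i, i, rfl⟩, hF i⟩
  let e : {x // ∃ i, g i = x} ≃ {x // ∃ i, f i = x} := Equiv.ofBijective F hbij
  refine ⟨e.extendSubtype, fun i => ?_⟩
  rw [Equiv.extendSubtype_apply_of_mem e (g i) ⟨i, rfl⟩]
  change (F ⟨g i, i, rfl⟩ : Fin 4) = f i
  rw [hF]

theorem gTRA : StmtTRA := by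
  intro W W' f S A l hf hD
  obtain ⟨D, V, E, F, i1, i2, i3, i4, M, nm, b, hS, hinj, hran, hA, hb, hl⟩ := hD
  refine ⟨D, V, E, F, i1, i2, i3, i4, M, f ∘ nm, b, hS, hf.comp hinj, ?_, ?_, hb, ?_⟩
  · rw [Set.range_comp, hran]
  · intro x y
    constructor
    · rintro ⟨u, v, huv, rfl, rfl⟩
      obtain ⟨d, rfl, rfl⟩ := (hA u v).1 huv
      exact ⟨d, rfl, rfl⟩
    · rintro ⟨d, rfl, rfl⟩
      exact ⟨_, _, (hA _ _).2 ⟨d, rfl, rfl⟩, rfl, rfl⟩
  · rw [← hl, List.map_map]
    rfl

theorem isFace_rot1 {D V E F : Type} [Fintype D] [Fintype V] [Fintype E] [Fintype F]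
    (M : PM D V E F) (d : D) (t : List D) (h : IsFace M (d :: t)) : IsFace M (t ++ [d]) := by
  obtain ⟨-, h2, h3⟩ := h
  refine ⟨by simp, ?_, ?_⟩
  · rw [List.nodup_append]
    rw [List.nodup_cons] at h2
    refine ⟨h2.2, by simp, ?_⟩
    intro a ha b hb
    simp only [List.mem_singleton] at hb
    subst hb
    intro h4
    subst h4
    exact h2.1 ha
  · rcases t with _ | ⟨e, t⟩
    · simpa using h3
    · simp only [List.cons_append, List.take_succ_cons, List.take_zero] at h3 ⊢
      have h5 : List.IsChain (fun d e => M.σ (M.α d) = e) (d :: e :: (t ++ [d])) := h3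
      rw [List.isChain_cons_cons] at h5
      have h6 : e :: (t ++ [d] ++ [e]) = (e :: (t ++ [d])) ++ [e] := by simp
      rw [h6, List.isChain_append]
      refine ⟨h5.2, by simp, ?_⟩
      intro x hx y hy
      have h7 : (e :: (t ++ [d])).getLast? = some d := by
        rw [← List.cons_append, List.getLast?_append]
        simp
      rw [h7] at hx
      simp only [Option.mem_def, Option.some.injEq, List.head?_cons] at hx hy
      subst hx
      subst hy
      exact h5.1

theorem rot1 {W : Type} {S : Set W} {A : W → W → Prop} {u : W} {l : List W}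
    (h : Disc S A (u :: l)) : Disc S A (l ++ [u]) := by
  obtain ⟨D, V, E, F, i1, i2, i3, i4, M, nm, b, hS, hinj, hran, hA, hb, hl⟩ := h
  rcases b with _ | ⟨d, t⟩
  · simp at hl
  · rw [List.map_cons, List.cons.injEq] at hl
    refine ⟨D, V, E, F, i1, i2, i3, i4, M, nm, t ++ [d], hS, hinj, hran, hA,
      isFace_rot1 M d t hb, ?_⟩
    rw [List.map_append, hl.2, List.map_singleton, hl.1]

theorem gROTL : StmtROTL := by
  intro W S A l r
  induction r generalizing l with
  | zero => intro h; simpa using h
  | succ r ih =>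
    intro h
    rcases l with _ | ⟨u, l⟩
    · simpa using h
    · rw [List.rotate_cons_succ]
      exact ih _ (rot1 h)

theorem gINIT : StmtINIT := by
  intro W u v huv
  refine ⟨Bool, Bool, Unit, Unit, inferInstance, inferInstance, inferInstance, inferInstance,
    { σ := 1
      α := Equiv.boolNot
      vt := id
      ed := fun _ => ()
      fc := fun _ => ()
      α_inv := by decide
      α_ne := by decide
      vt_iff := ?_
      ed_iff := by decide
      fc_iff := ?_
      vt_surj := Function.surjective_id
      ed_surj := fun _ => ⟨true, rfl⟩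
      fc_surj := fun _ => ⟨true, rfl⟩
      conn := ?_
      euler := by decide }, fun b => if b then v else u, [false, true], ?_, ?_, ?_, ?_, ?_, ?_⟩
  · intro d e
    rw [Perm.sameCycle_one]
    exact Iff.rfl
  · intro d e
    refine ⟨fun _ => ?_, fun _ => rfl⟩
    rw [one_mul]
    by_cases h : d = e
    · rw [h]
    · refine ⟨1, ?_⟩
      rw [zpow_one]
      revert d e
      decide
  · rintro P ⟨d, hd⟩ - h2 e
    by_cases h : d = e
    · rwa [← h]
    · have h3 := h2 d hd
      have h4 : Equiv.boolNot d = e := by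
        clear h3 h2 hd
        revert h
        revert d e
        decide
      rwa [h4] at h3
  · refine ⟨by decide, ?_⟩
    intro d e h _
    exact h
  · intro a b hab
    cases a <;> cases b <;> simp_all [huv.symm]
  · ext x
    simp only [Set.mem_range, Bool.exists_bool, Set.mem_insert_iff, Set.mem_singleton_iff]
    simp only [Bool.false_eq_true, if_false, if_true]
    constructor
    · rintro (h | h)
      · exact Or.inl h.symm
      · exact Or.inr h.symm
    · rintro (h | h)
      · exact Or.inl h.symm
      · exact Or.inr h.symm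
  · intro x y
    unfold edg
    simp only [List.mem_singleton, exists_eq_left, Bool.exists_bool, id]
    change _ ↔ ((if (false : Bool) = true then v else u) = x ∧
      (if (true : Bool) = true then v else u) = y) ∨
      ((if (true : Bool) = true then v else u) = x ∧ (if (false : Bool) = true then v else u) = y)
    simp
  · refine ⟨by simp, by simp, ?_⟩
    simp only [List.take_succ_cons, List.take_zero, List.cons_append, List.nil_append]
    rw [List.isChain_cons_cons, List.isChain_cons_cons]
    exact ⟨rfl, rfl, by simp⟩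
  · rfl

theorem gLOW (hEDG : StmtEDG) (hPCNT : StmtPCNT) : StmtLOW := by
  intro k
  induction k with
  | zero =>
    intro V _ G hD h3
    have := hEDG V G hD h3
    omega
  | succ k ih =>
    intro V _ G hD h3
    obtain ⟨a, b, c, d, h1, h2, h4, h5, h6, h7, h8⟩ := hD
    have h9 := ih (Option V) _ h8 (by rw [Fintype.card_option]; omega)
    rw [hPCNT V G a b c d h1 h2 h4 h5 h6 h7, Fintype.card_option] at h9
    omega

end Pool.Agent.Helper85.CR
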